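import Pool.Agent.Zk71.PE.Spec
import Pool.Agent.N658.TP.In3

/-! # Inputs and the passage to families -/

set_option autoImplicit false

open scoped BigOperators ComplexConjugate Classical InnerProductSpace Matrix ComplexOrder
open scoped Matrix.Norms.L2Operator

noncomputable section

namespace Pool.Agent.Zk71.PE

open Pool.Agent.Y738.PE Pool.Agent.N658.TP Pool.Agent.N658.TP.Sp

theorem freeG' : StmFreeG :=
  freeG (reachG (lowK Pool.Agent.N79.TP.frob Pool.Agent.N692.TP.pbMain) Pool.Agent.N152.TP.cmpF)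
    Pool.Agent.N711.TP.EnMul.enMul

/-- The conclusion for families. -/
theorem families {d R' : ℕ} (h : Pool.Agent.TH235.PP.BoxOp d (R' + 1)) (R : Finset (ℤ × ℤ))
    (H : PolyApp h R) : ∃ N : ℕ,
    (∀ ε : ℝ, 0 < ε → ε ≤ 1 →
      ∃ L₀ : ℕ, ∀ (L : ℕ) [NeZero L], L₀ ≤ L → ∀ Ψ : Conf d L → ℂ,
        IsGround (fun x y : BConf d (R' + 1) => h x y) L Ψ → TransInv Ψ →
        ∃ (D : ℕ) (A : Tensor d D), (D : ℝ) ≤ (2 / ε) ^ N ∧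
          ∀ (L' : ℕ) [NeZero L'], (2 / ε) ^ N ≤ (L' : ℝ) →
            nrm (pepsX A L') ≠ 0 ∧ Close R Ψ (pepsX A L') ε) ∧
    (∀ Ψ : ∀ L : ℕ, Conf d L → ℂ,
      (∃ L₁ : ℕ, ∀ (L : ℕ) [NeZero L], L₁ ≤ L →
        IsGround (fun x y : BConf d (R' + 1) => h x y) L (Ψ L) ∧ TransInv (Ψ L)) →
      A2.Conv R Ψ → ∀ ε : ℝ, 0 < ε → ε ≤ 1 → ∃ (D : ℕ) (A : Tensor d D),
        (D : ℝ) ≤ (2 / ε) ^ N ∧ ∃ L₃ : ℕ, ∀ (L : ℕ) [NeZero L], L₃ ≤ L →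
          nrm (pepsX A L) ≠ 0 ∧ Close R (Ψ L) (pepsX A L) ε) := by
  obtain ⟨N, hN⟩ := H
  refine ⟨2 * N, ?_, ?_⟩
  · intro ε hε hε1
    have h2 : 1 ≤ 2 / ε := by rw [le_div_iff₀ hε]; linarith
    have hle : (2 / ε) ^ N ≤ (2 / ε) ^ (2 * N) := pow_le_pow_right₀ h2 (by omega)
    obtain ⟨L₀, hL₀⟩ := hN ε hε hε1
    refine ⟨L₀, fun L _ hL Ψ hΨ hT => ?_⟩
    obtain ⟨D, A, hD, hA⟩ := hL₀ L hL Ψ hΨ hT
    exact ⟨D, A, hD.trans hle, fun L' _ hL' => hA L' (hle.trans hL')⟩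
  · intro Ψ hΨ hconv ε hε hε1
    obtain ⟨L₁, hL₁⟩ := hΨ
    obtain ⟨L₀, hL₀⟩ := hN (ε / 2) (by linarith) (by linarith)
    have hle : (2 / (ε / 2)) ^ N ≤ (2 / ε) ^ (2 * N) := by
      have e1 : 2 / (ε / 2) = 2 * (2 / ε) := by field_simp
      have h2 : 2 ≤ 2 / ε := by rw [le_div_iff₀ hε]; linarith
      rw [pow_mul, e1]
      refine pow_le_pow_left₀ (by positivity) ?_ N
      nlinarith
    refine fam d R Ψ hconv ((2 / ε) ^ (2 * N)) ε hε ⟨max L₀ L₁, fun L _ hL => ?_⟩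
    obtain ⟨D, A, hD, hA⟩ := hL₀ L ((le_max_left _ _).trans hL) (Ψ L)
      (hL₁ L ((le_max_right _ _).trans hL)).1 (hL₁ L ((le_max_right _ _).trans hL)).2
    refine ⟨D, A, hD.trans hle, ⌈(2 / (ε / 2)) ^ N⌉₊, fun L' _ hL' => hA L' ?_⟩
    exact (Nat.le_ceil _).trans (by exact_mod_cast hL')

end Pool.Agent.Zk71.PE
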