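import Pool.Agent.N134.TP.Col
import Pool.Agent.N674.TP.Low
import Pool.Agent.N658.TP.In3

/-! # A column of an approximate power with small expectation of another observable -/

set_option autoImplicit false
set_option linter.unusedSectionVars false

open scoped BigOperators ComplexConjugate Matrix

noncomputable section

namespace Pool.Agent.Zk71.PE

open Pool.Agent.TH235 Pool.Agent.TH235.PP Pool.Agent.N134.TP.Col

variable {n : Type} [Fintype n] [DecidableEq n]

/-- diagonal entries of `B` in the basis `U` -/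
def dg (U B : Matrix n n ℂ) (j : n) : ℝ := ((Uᴴ * B * U) j j).re

lemma dg_col (U B : Matrix n n ℂ) (j : n) :
    dg U B j = (ip (fun s => U s j) (B *ᵥ fun s => U s j)).re := by
  unfold dg ip
  rw [mul_assoc, Matrix.mul_apply]
  congr 1

lemma dg_add (U B C : Matrix n n ℂ) (a b : ℝ) (j : n) :
    dg U ((a : ℂ) • B + (b : ℂ) • C) j = a * dg U B j + b * dg U C j := by
  unfold dg
  rw [mul_add, add_mul, Matrix.add_apply, Complex.add_re, mul_smul_comm, smul_mul_assoc,
    mul_smul_comm, smul_mul_assoc, Matrix.smul_apply, Matrix.smul_apply, smul_eq_mul, smul_eq_mul,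
    Complex.re_ofReal_mul, Complex.re_ofReal_mul]

lemma col_norm (U : Matrix n n ℂ) (hU : Uᴴ * U = 1) (j : n) : normSq (fun s => U s j) = 1 := by
  have h1 : (Uᴴ * U) j j = 1 := by rw [hU]; simp
  rw [Matrix.mul_apply] at h1
  have h2 : ((normSq (fun s => U s j) : ℝ) : ℂ) = 1 := by
    rw [← h1]
    unfold normSq
    push_cast
    refine Finset.sum_congr rfl fun s _ => ?_
    rw [Matrix.conjTranspose_apply]
    have h3 := RCLike.conj_mul (U s j)
    rw [show star (U s j) = (starRingEnd ℂ) (U s j) from rfl, h3]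
    norm_cast
  exact_mod_cast h2

open scoped Matrix.Norms.L2Operator in
lemma dg_le (U B : Matrix n n ℂ) (hU : Uᴴ * U = 1) (j : n) : |dg U B j| ≤ ‖B‖ := by
  have h1 : nr (fun s => U s j) = 1 := by
    have := nr_sq (fun s => U s j)
    rw [col_norm U hU j] at this
    have h0 := nr_nonneg (fun s => U s j)
    nlinarith
  rw [dg_col]
  refine (Complex.abs_re_le_norm _).trans ((ip_le _ _).trans ?_)
  rw [h1, one_mul]
  refine (nr_mulVec _ _).trans ?_
  rw [h1, mul_one]

lemma dg_diag (U A : Matrix n n ℂ) (hU : Uᴴ * U = 1) (l : n → ℝ)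
    (hA : A = U * Matrix.diagonal (fun j => ((l j : ℝ) : ℂ)) * Uᴴ) (j : n) : dg U A j = l j := by
  unfold dg
  have h1 : Uᴴ * A * U = Matrix.diagonal (fun j => ((l j : ℝ) : ℂ)) := by
    rw [hA]
    calc Uᴴ * (U * Matrix.diagonal (fun j => ((l j : ℝ) : ℂ)) * Uᴴ) * U =
        (Uᴴ * U) * Matrix.diagonal (fun j => ((l j : ℝ) : ℂ)) * (Uᴴ * U) := by
          simp only [mul_assoc]
      _ = _ := by rw [hU, one_mul, mul_one]
  rw [h1, Matrix.diagonal_apply_eq, Complex.ofReal_re]

lemma tr_PBP (U B : Matrix n n ℂ) (hU : Uᴴ * U = 1) (l : n → ℝ) :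
    ((U * Matrix.diagonal (fun j => ((l j : ℝ) : ℂ)) * Uᴴ) * B *
      (U * Matrix.diagonal (fun j => ((l j : ℝ) : ℂ)) * Uᴴ)).trace.re =
      ∑ j, l j ^ 2 * dg U B j := by
  have h1 : ((U * Matrix.diagonal (fun j => ((l j : ℝ) : ℂ)) * Uᴴ) * B *
      (U * Matrix.diagonal (fun j => ((l j : ℝ) : ℂ)) * Uᴴ)) =
      U * (Matrix.diagonal (fun j => ((l j : ℝ) : ℂ)) * (Uᴴ * B * U) *
      Matrix.diagonal (fun j => ((l j : ℝ) : ℂ)) * Uᴴ) := by
    simp only [mul_assoc]
  rw [h1, Matrix.trace_mul_comm, mul_assoc, mul_assoc, hU, mul_one]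
  unfold Matrix.trace
  rw [Complex.re_sum]
  refine Finset.sum_congr rfl fun j _ => ?_
  rw [Matrix.diag_apply, Matrix.mul_diagonal, Matrix.diagonal_mul]
  unfold dg
  have h2 : ((l j : ℝ) : ℂ) * (Uᴴ * B * U) j j * ((l j : ℝ) : ℂ) =
      ((l j ^ 2 : ℝ) : ℂ) * (Uᴴ * B * U) j j := by
    push_cast; ring
  rw [h2, Complex.re_ofReal_mul]

/-- the Gibbs variational inequality in the form needed -/
lemma gibbs (hPB : Pool.Agent.N658.TP.StmPB) [Nonempty n] (U : Matrix n n ℂ) (hU : Uᴴ * U = 1)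
    (hU' : U * Uᴴ = 1) (Y B : Matrix n n ℂ) (hY : Y.IsHermitian) (x : n → ℝ) (t : ℝ)
    (hx : ∀ j, dg U Y j = x j + t * dg U B j) :
    t * (∑ j, Real.exp (x j) * dg U B j) ≤
      (Real.log (NormedSpace.exp Y).trace.re - Real.log (∑ j, Real.exp (x j))) *
        ∑ j, Real.exp (x j) := by
  obtain ⟨W, hW⟩ : ∃ W, W = ∑ j, Real.exp (x j) := ⟨_, rfl⟩
  have hW0 : 0 < W := by
    rw [hW]
    exact Finset.sum_pos (fun j _ => Real.exp_pos _) Finset.univ_nonempty
  rw [← hW]
  obtain ⟨s, hs⟩ : ∃ s, s = t * (∑ j, Real.exp (x j) * dg U B j) / W := ⟨_, rfl⟩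
  have hsW : s * W = t * (∑ j, Real.exp (x j) * dg U B j) := by rw [hs]; field_simp
  -- the trace
  have htr : (NormedSpace.exp Y).trace.re = ∑ j, dg U (NormedSpace.exp Y) j := by
    have h1 : (NormedSpace.exp Y).trace = (Uᴴ * NormedSpace.exp Y * U).trace := by
      rw [Matrix.trace_mul_comm, ← mul_assoc, hU', one_mul]
    rw [h1]
    unfold Matrix.trace dg
    rw [Complex.re_sum]
    rfl
  have hge : ∀ j, Real.exp (x j) * (Real.exp s * (1 + (t * dg U B j - s))) ≤
      dg U (NormedSpace.exp Y) j := by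
    intro j
    have h1 := (hPB n Y hY (fun s => U s j) (col_norm U hU j)).1
    have h2 : Pool.Agent.N658.TP.qf Y (fun s => U s j) = x j + t * dg U B j := by
      rw [← hx j, dg_col]; rfl
    have h3 : Pool.Agent.N658.TP.qf (NormedSpace.exp Y) (fun s => U s j) =
        dg U (NormedSpace.exp Y) j := by rw [dg_col]; rfl
    rw [h2, h3] at h1
    refine le_trans ?_ h1
    rw [Real.exp_add]
    refine mul_le_mul_of_nonneg_left ?_ (Real.exp_pos _).le
    have h4 := Real.add_one_le_exp (t * dg U B j - s)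
    have h5 : Real.exp (t * dg U B j) = Real.exp s * Real.exp (t * dg U B j - s) := by
      rw [← Real.exp_add]; congr 1; ring
    rw [h5]
    refine mul_le_mul_of_nonneg_left ?_ (Real.exp_pos _).le
    linarith
  have hsum : Real.exp s * W ≤ (NormedSpace.exp Y).trace.re := by
    rw [htr]
    refine le_trans (le_of_eq ?_) (Finset.sum_le_sum fun j _ => hge j)
    have h1 : ∀ j, Real.exp (x j) * (Real.exp s * (1 + (t * dg U B j - s))) =
        Real.exp s * ((1 - s) * Real.exp (x j) + t * (Real.exp (x j) * dg U B j)) := by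
      intro j; ring
    rw [Finset.sum_congr rfl fun j _ => h1 j, ← Finset.mul_sum, Finset.sum_add_distrib,
      ← Finset.mul_sum, ← Finset.mul_sum, ← hW, ← hsW]
    ring
  have hlog := Real.log_le_log (by positivity) hsum
  rw [Real.log_mul (Real.exp_pos _).ne' hW0.ne', Real.log_exp] at hlog
  rw [← hsW]
  exact mul_le_mul_of_nonneg_right (by linarith) hW0.le

/-- scalar comparison of a power with the exponential -/
lemma pow_exp (x η : ℝ) (M : ℕ) (h1 : |x| ≤ 1 / 2) (h2 : 2 * M * x ^ 2 ≤ η) :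
    (1 - η) * Real.exp (-(2 * M * x)) ≤ (1 - x) ^ (2 * M) ∧
      (1 - x) ^ (2 * M) ≤ Real.exp (-(2 * M * x)) := by
  rw [abs_le] at h1
  have hx : 0 < 1 - x := by linarith
  constructor
  · -- `(1 - x) e^x ≥ 1 - x^2`
    have h3 : 1 - x ^ 2 ≤ (1 - x) * Real.exp x := by
      have := Real.add_one_le_exp x
      nlinarith
    have h4 : 0 ≤ 1 - x ^ 2 := by nlinarith
    have h5 := one_add_mul_le_pow (a := -(x ^ 2)) (by nlinarith) (2 * M)
    have h6 : 1 - η ≤ (1 - x ^ 2) ^ (2 * M) := by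
      have : (1 : ℝ) + ((2 * M : ℕ) : ℝ) * -(x ^ 2) ≤ (1 + -(x ^ 2)) ^ (2 * M) := h5
      have e : (1 : ℝ) + -(x ^ 2) = 1 - x ^ 2 := by ring
      rw [e] at this
      push_cast at this
      linarith
    have h7 : (1 - x ^ 2) ^ (2 * M) ≤ ((1 - x) * Real.exp x) ^ (2 * M) :=
      pow_le_pow_left₀ h4 h3 _
    rw [mul_pow, ← Real.exp_nat_mul] at h7
    have h8 : (1 - η) * Real.exp (-(2 * M * x)) ≤
        ((1 - x) ^ (2 * M) * Real.exp (((2 * M : ℕ) : ℝ) * x)) * Real.exp (-(2 * M * x)) :=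
      mul_le_mul_of_nonneg_right (h6.trans h7) (Real.exp_pos _).le
    refine h8.trans (le_of_eq ?_)
    rw [mul_assoc, ← Real.exp_add]
    push_cast
    rw [show 2 * (M : ℝ) * x + -(2 * M * x) = 0 by ring, Real.exp_zero, mul_one]
  · have h3 : 1 - x ≤ Real.exp (-x) := by
      have := Real.add_one_le_exp (-x)
      linarith
    refine (pow_le_pow_left₀ hx.le h3 _).trans (le_of_eq ?_)
    rw [← Real.exp_nat_mul]
    congr 1
    push_cast
    ring

open scoped Matrix.Norms.L2Operator in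
/-- The column. -/
theorem colK (hPB : Pool.Agent.N658.TP.StmPB) [Nonempty n] (A : Matrix n n ℂ)
    (hA : A.IsHermitian) (κ δ η b0 β t : ℝ) (M : ℕ) (K0 H B : Matrix n n ℂ) (hH : H.IsHermitian)
    (hκ : 0 ≤ κ) (ht : 0 < t) (hAB : ((2 * M * κ : ℝ) : ℂ) • A = (β : ℂ) • H + (t : ℂ) • B)
    (hb0 : ‖B‖ ≤ b0) (hδ0 : 0 ≤ δ) (hδ1 : δ ≤ 1 / 2) (hη1 : η ≤ 1 / 2)
    (hκ1 : ∀ j, |κ * hA.eigenvalues j| ≤ 1 / 2)
    (hκ2 : ∀ j, 2 * M * (κ * hA.eigenvalues j) ^ 2 ≤ η)
    (hfr : fr2 (K0 - (1 - (κ : ℂ) • A) ^ M) ≤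
      δ ^ 2 * ∑ j, (1 - κ * hA.eigenvalues j) ^ (2 * M))
    (φ : n → ℂ) (hφ : normSq φ = 1) :
    ∃ s : n, 0 < normSq (fun a => K0 a s) ∧
      (ip (fun a => K0 a s) (B *ᵥ fun a => K0 a s)).re ≤
        (Pool.Agent.N658.TP.qf B φ + (Real.log (NormedSpace.exp ((-β : ℂ) • H)).trace.re +
          β * Pool.Agent.N658.TP.qf H φ) / t + b0 * (16 * η + 40 * δ)) *
          normSq (fun a => K0 a s) := by
  obtain ⟨U, hU, hU', hAd, hdec⟩ := spec_dec' A hA
  set lam := hA.eigenvalues with hlam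
  set l : n → ℝ := fun j => 1 - κ * lam j with hldef
  have hB : 0 ≤ b0 := (norm_nonneg B).trans hb0
  have hl' : ∀ j, 0 < l j := by
    intro j
    have := (abs_le.1 (hκ1 j)).2
    simp only [hldef]
    linarith
  have hη0 : 0 ≤ η := by
    obtain ⟨j⟩ := (inferInstance : Nonempty n)
    have := hκ2 j
    have h0 : 0 ≤ 2 * (M : ℝ) * (κ * lam j) ^ 2 := by positivity
    linarith
  obtain ⟨S, hS⟩ : ∃ S : ℝ, S = ∑ j, l j ^ (2 * M) := ⟨_, rfl⟩
  have hfr' : fr2 (K0 - (1 - (κ : ℂ) • A) ^ M) ≤ δ ^ 2 * S := by rw [hS]; exact hfr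
  have hS0 : 0 < S := by
    rw [hS]
    exact Finset.sum_pos (fun j _ => pow_pos (hl' j) _) Finset.univ_nonempty
  -- the exponential weights
  obtain ⟨x, hx⟩ : ∃ x : n → ℝ, x = fun j => -(2 * M * (κ * lam j)) := ⟨_, rfl⟩
  obtain ⟨W, hW⟩ : ∃ W, W = ∑ j, Real.exp (x j) := ⟨_, rfl⟩
  have hW0 : 0 < W := by
    rw [hW]
    exact Finset.sum_pos (fun j _ => Real.exp_pos _) Finset.univ_nonempty
  have hpe : ∀ j, (1 - η) * Real.exp (x j) ≤ l j ^ (2 * M) ∧ l j ^ (2 * M) ≤ Real.exp (x j) := by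
    intro j
    rw [hx]
    exact pow_exp (κ * lam j) η M (hκ1 j) (hκ2 j)
  have hSW : S ≤ W := by
    rw [hS, hW]
    exact Finset.sum_le_sum fun j _ => (hpe j).2
  have hSW2 : W / 2 ≤ S := by
    have h1 : (1 - η) * W ≤ S := by
      rw [hS, hW, Finset.mul_sum]
      exact Finset.sum_le_sum fun j _ => (hpe j).1
    nlinarith
  -- the Gibbs inequality
  obtain ⟨g, hg⟩ : ∃ g, g = (∑ j, Real.exp (x j) * dg U B j) / W := ⟨_, rfl⟩
  have hgW : g * W = ∑ j, Real.exp (x j) * dg U B j := by rw [hg]; field_simp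
  have hYh : ((-β : ℂ) • H).IsHermitian := by
    have := Pool.Agent.N712.TP.herm_smul H hH (-β)
    push_cast at this
    exact this
  have hdgA : ∀ j, dg U A j = lam j := fun j => dg_diag U A hU lam hAd j
  have hdY : ∀ j, dg U ((-β : ℂ) • H) j = x j + t * dg U B j := by
    intro j
    have h1 : dg U (((2 * M * κ : ℝ) : ℂ) • A) j = 2 * M * κ * lam j := by
      have h2 := dg_add U A A (2 * M * κ) 0 j
      simp only [Complex.ofReal_zero, zero_smul, add_zero, zero_mul] at h2
      rw [h2, hdgA]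
    have h3 := dg_add U H B β t j
    rw [← hAB, h1] at h3
    have h4 : dg U ((-β : ℂ) • H) j = -β * dg U H j := by
      have h2 := dg_add U H H (-β) 0 j
      simp only [Complex.ofReal_zero, zero_smul, add_zero, zero_mul, Complex.ofReal_neg] at h2
      exact h2
    rw [h4, hx]
    simp only
    linarith
  have hgib := gibbs hPB U hU hU' ((-β : ℂ) • H) B hYh x t hdY
  rw [← hW, ← hgW] at hgib
  -- lower bound for `log W`
  have hlogW : -(β * Pool.Agent.N658.TP.qf H φ + t * Pool.Agent.N658.TP.qf B φ) ≤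
      Real.log W := by
    obtain ⟨j0, -, hj0⟩ := Finset.exists_min_image Finset.univ lam Finset.univ_nonempty
    have h1 : x j0 ≤ Real.log W := by
      rw [Real.le_log_iff_exp_le hW0, hW]
      exact Finset.single_le_sum (f := fun j => Real.exp (x j)) (fun j _ => (Real.exp_pos _).le)
        (Finset.mem_univ j0)
    refine le_trans ?_ h1
    -- the energy of `φ`
    have hqa : Pool.Agent.N658.TP.qf (((2 * M * κ : ℝ) : ℂ) • A) φ =
        β * Pool.Agent.N658.TP.qf H φ + t * Pool.Agent.N658.TP.qf B φ := by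
      rw [hAB]
      have e1 : Pool.Agent.N658.TP.qf ((β : ℂ) • H + (t : ℂ) • B) φ =
          Pool.Agent.N658.TP.qf ((β : ℂ) • H) φ + Pool.Agent.N658.TP.qf ((t : ℂ) • B) φ := by
        unfold Pool.Agent.N658.TP.qf
        rw [Matrix.add_mulVec, ip_add_right, Complex.add_re]
      rw [e1, Pool.Agent.N712.TP.qf_smulA, Pool.Agent.N712.TP.qf_smulA]
    rw [← hqa, Pool.Agent.N712.TP.qf_smulA, hx]
    have h2 := Pool.Agent.N674.TP.ener_ge A hA (lam j0) (fun j => hj0 j (Finset.mem_univ j)) φ hφ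
    have h3 : 0 ≤ 2 * (M : ℝ) * κ := by positivity
    have h4 := mul_le_mul_of_nonneg_left h2 h3
    unfold Pool.Agent.N658.TP.qf
    simp only
    linarith
  have hgle : g ≤ Pool.Agent.N658.TP.qf B φ +
      (Real.log (NormedSpace.exp ((-β : ℂ) • H)).trace.re +
        β * Pool.Agent.N658.TP.qf H φ) / t := by
    have h1 : t * g ≤ Real.log (NormedSpace.exp ((-β : ℂ) • H)).trace.re - Real.log W := by
      have h2 : (t * g) * W ≤
          (Real.log (NormedSpace.exp ((-β : ℂ) • H)).trace.re - Real.log W) * W := by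
        rw [mul_assoc]; exact hgib
      exact le_of_mul_le_mul_right h2 hW0
    have h3 : t * g ≤ t * Pool.Agent.N658.TP.qf B φ +
        (Real.log (NormedSpace.exp ((-β : ℂ) • H)).trace.re +
          β * Pool.Agent.N658.TP.qf H φ) := by linarith
    rw [← sub_le_iff_le_add', le_div_iff₀ ht]
    linarith
  have hgb : |g| ≤ b0 := by
    have h1 : |g * W| ≤ b0 * W := by
      rw [hgW, hW, Finset.mul_sum]
      refine (Finset.abs_sum_le_sum_abs _ _).trans (Finset.sum_le_sum fun j _ => ?_)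
      rw [abs_mul, abs_of_pos (Real.exp_pos _), mul_comm]
      exact mul_le_mul_of_nonneg_right ((dg_le U B hU j).trans hb0) (Real.exp_pos _).le
    rw [abs_mul, abs_of_pos hW0] at h1
    exact le_of_mul_le_mul_right h1 hW0
  obtain ⟨P, hP⟩ : ∃ P : Matrix n n ℂ, P = (1 - (κ : ℂ) • A) ^ M := ⟨_, rfl⟩
  have hPd : P = U * Matrix.diagonal (fun j => ((l j ^ M : ℝ) : ℂ)) * Uᴴ := by
    rw [hP, hdec κ]
    exact diag_pow U hU hU' l M
  have hPh : Pᴴ = P := by
    rw [hPd]
    exact dia_herm U _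
  -- the traces
  have hfrP : fr2 P = S := by
    have h1 := fr2_trace P
    rw [hPh, hPd, dia_mul U hU, trace_diag U hU, ← hPd] at h1
    have h2 := Complex.ofReal_injective h1
    rw [← h2, hS]
    refine Finset.sum_congr rfl fun j _ => ?_
    rw [← pow_add]
    congr 1
    ring
  have htr : ∑ t, (ip (fun s => P s t) (B *ᵥ fun s => P s t)).re =
      ∑ j, l j ^ (2 * M) * dg U B j := by
    rw [← Complex.re_sum, sum_ip, hPh, hPd, tr_PBP U B hU (fun j => l j ^ M)]
    refine Finset.sum_congr rfl fun j _ => ?_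
    rw [← pow_mul, mul_comm M 2]
  obtain ⟨H', hH'⟩ : ∃ H' : Matrix n n ℂ, H' = B - (g : ℂ) • 1 := ⟨_, rfl⟩
  have hHn : ‖H'‖ ≤ 2 * b0 := by
    rw [hH']
    refine (norm_sub_le _ _).trans ?_
    rw [norm_smul, Complex.norm_real, Real.norm_eq_abs]
    have h1 : ‖(1 : Matrix n n ℂ)‖ = 1 := norm_one
    rw [h1, mul_one]
    linarith
  obtain ⟨D, hD⟩ : ∃ D : Matrix n n ℂ, D = K0 - P := ⟨_, rfl⟩
  rw [← hP, ← hD] at hfr'
  have hcol : ∀ t, (fun s => K0 s t) = (fun s => P s t) + fun s => D s t := by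
    intro t
    funext s
    rw [Pi.add_apply, hD, Matrix.sub_apply]
    ring
  -- sums of squares
  have hDsum : ∑ t, nr (fun s => D s t) ^ 2 ≤ δ ^ 2 * S := by
    have h1 : ∑ t, nr (fun s => D s t) ^ 2 = fr2 D := by
      rw [← sum_normSq]
      exact Finset.sum_congr rfl fun t _ => nr_sq _
    rw [h1]
    exact hfr'
  have hPsum : ∑ t, nr (fun s => P s t) ^ 2 = S := by
    rw [← hfrP, ← sum_normSq]
    exact Finset.sum_congr rfl fun t _ => nr_sq _
  have hCS : ∑ t, nr (fun s => D s t) * nr (fun s => P s t) ≤ δ * S := by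
    have h1 := Real.sum_mul_le_sqrt_mul_sqrt Finset.univ (fun t => nr (fun s => D s t))
      (fun t => nr (fun s => P s t))
    refine h1.trans ?_
    rw [hPsum]
    have h2 : Real.sqrt (∑ t, nr (fun s => D s t) ^ 2) ≤ δ * Real.sqrt S := by
      rw [← Real.sqrt_sq hδ0, ← Real.sqrt_mul (sq_nonneg δ)]
      exact Real.sqrt_le_sqrt hDsum
    calc _ ≤ δ * Real.sqrt S * Real.sqrt S := mul_le_mul_of_nonneg_right h2 (Real.sqrt_nonneg _)
      _ = δ * S := by rw [mul_assoc, Real.mul_self_sqrt hS0.le]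
  -- the total norm
  have hK : S / 4 ≤ fr2 K0 := by
    have h1 : fr P ≤ fr K0 + fr D := by
      have h2 : P = K0 + -D := by rw [hD]; abel
      have h3 := fr_add K0 (-D)
      rw [fr_neg, ← h2] at h3
      exact h3
    have h4 : fr P = Real.sqrt S := by
      rw [← hfrP, ← fr_sq, Real.sqrt_sq (fr_nonneg _)]
    have h5 : fr D ≤ δ * Real.sqrt S := by
      rw [← Real.sqrt_sq hδ0, ← Real.sqrt_mul (sq_nonneg δ), ← Real.sqrt_sq (fr_nonneg D), fr_sq]
      exact Real.sqrt_le_sqrt hfr'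
    have h6 : Real.sqrt S / 2 ≤ fr K0 := by
      have h7 := Real.sqrt_nonneg S
      nlinarith [h1, h4, h5, h7]
    have h8 := pow_le_pow_left₀ (by positivity) h6 2
    rw [fr_sq, div_pow, Real.sq_sqrt hS0.le] at h8
    linarith
  -- the total expectation
  have hEn : ∑ t, (ip (fun s => K0 s t) (H' *ᵥ fun s => K0 s t)).re ≤
      W * (b0 * (2 * η + 5 * δ)) := by
    have h1 : ∀ t, (ip (fun s => K0 s t) (H' *ᵥ fun s => K0 s t)).re ≤
        (ip (fun s => P s t) (H' *ᵥ fun s => P s t)).re +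
          2 * (2 * b0) * (nr (fun s => D s t) * nr (fun s => P s t)) +
          (2 * b0) * nr (fun s => D s t) ^ 2 := by
      intro t
      rw [hcol t]
      exact q_add H' _ hHn _ _
    refine (Finset.sum_le_sum fun t _ => h1 t).trans ?_
    rw [Finset.sum_add_distrib, Finset.sum_add_distrib, ← Finset.mul_sum, ← Finset.mul_sum]
    have h2 : ∑ t, (ip (fun s => P s t) (H' *ᵥ fun s => P s t)).re ≤ 2 * b0 * η * W := by
      have h3 : ∑ t, (ip (fun s => P s t) (H' *ᵥ fun s => P s t)).re =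
          ∑ j, (l j ^ (2 * M) - Real.exp (x j)) * (dg U B j - g) := by
        rw [hH']
        simp only [q_eq]
        rw [Finset.sum_sub_distrib, htr, ← Finset.mul_sum, sum_normSq, hfrP]
        have e1 : ∑ j, (l j ^ (2 * M) - Real.exp (x j)) * (dg U B j - g) =
            (∑ j, l j ^ (2 * M) * dg U B j - g * ∑ j, l j ^ (2 * M)) -
              (∑ j, Real.exp (x j) * dg U B j - g * ∑ j, Real.exp (x j)) := by
          rw [Finset.mul_sum, Finset.mul_sum, ← Finset.sum_sub_distrib, ← Finset.sum_sub_distrib,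
            ← Finset.sum_sub_distrib]
          exact Finset.sum_congr rfl fun j _ => by ring
        rw [e1, ← hS, ← hW, ← hgW]
        ring
      rw [h3, hW, Finset.mul_sum]
      refine Finset.sum_le_sum fun j _ => ?_
      have h5 := hpe j
      have h6 := Real.exp_pos (x j)
      have h7 : |l j ^ (2 * M) - Real.exp (x j)| ≤ η * Real.exp (x j) := by
        rw [abs_le]
        constructor
        · linarith [h5.1]
        · have := mul_nonneg hη0 h6.le
          linarith [h5.2]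
      have h8 : |dg U B j - g| ≤ 2 * b0 := by
        have := dg_le U B hU j
        refine (abs_sub _ _).trans ?_
        linarith
      have h9 := mul_le_mul h7 h8 (abs_nonneg _) (mul_nonneg hη0 h6.le)
      rw [← abs_mul] at h9
      refine (le_abs_self _).trans (h9.trans (le_of_eq ?_))
      ring
    have h4 : 2 * (2 * b0) * ∑ t, nr (fun s => D s t) * nr (fun s => P s t) ≤
        2 * (2 * b0) * (δ * S) := mul_le_mul_of_nonneg_left hCS (by positivity)
    have h5 : (2 * b0) * ∑ t, nr (fun s => D s t) ^ 2 ≤ (2 * b0) * (δ ^ 2 * S) :=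
      mul_le_mul_of_nonneg_left hDsum (by positivity)
    have h6 : (2 * b0) * (δ ^ 2 * S) ≤ b0 * (δ * S) := by
      have h7 : δ ^ 2 ≤ δ / 2 := by nlinarith
      have h8 : δ ^ 2 * S ≤ δ / 2 * S := mul_le_mul_of_nonneg_right h7 hS0.le
      nlinarith [mul_le_mul_of_nonneg_left h8 (by positivity : (0:ℝ) ≤ 2 * b0)]
    have h9 : b0 * (δ * S) ≤ b0 * (δ * W) :=
      mul_le_mul_of_nonneg_left (mul_le_mul_of_nonneg_left hSW hδ0) hB
    have h10 : W * (b0 * (2 * η + 5 * δ)) = 2 * b0 * η * W + 5 * (b0 * (δ * W)) := by ring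
    rw [h10]
    have h11 : 2 * (2 * b0) * (δ * S) = 4 * (b0 * (δ * S)) := by ring
    linarith
  -- conclusion
  have hns : ∀ t, 0 ≤ normSq (fun s => K0 s t) := fun t => by
    unfold normSq
    exact Finset.sum_nonneg fun s _ => by positivity
  obtain ⟨c, hc⟩ : ∃ c : ℝ, c = b0 * (16 * η + 40 * δ) := ⟨_, rfl⟩
  have hc0 : 0 ≤ c := by rw [hc]; positivity
  have main : ∃ s : n, 0 < normSq (fun a => K0 a s) ∧
      (ip (fun a => K0 a s) (H' *ᵥ fun a => K0 a s)).re ≤ c * normSq (fun a => K0 a s) := by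
    by_contra hcon
    push Not at hcon
    have hle : ∀ t, c * normSq (fun s => K0 s t) ≤
        (ip (fun s => K0 s t) (H' *ᵥ fun s => K0 s t)).re := by
      intro t
      rcases (hns t).lt_or_eq with h0 | h0
      · exact (hcon t h0).le
      · have hz : (fun s => K0 s t) = 0 := by
          have h1 : nr (fun s => K0 s t) = 0 := by
            have := nr_sq (fun s => K0 s t)
            rw [← h0] at this
            exact pow_eq_zero_iff (two_ne_zero) |>.1 this
          unfold nr at h1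
          have h2 := norm_eq_zero.1 h1
          have h3 := congrArg WithLp.ofLp h2
          exact h3
        rw [hz]
        simp [ip, normSq]
    have hlt : ∃ t ∈ Finset.univ, c * normSq (fun s => K0 s t) <
        (ip (fun s => K0 s t) (H' *ᵥ fun s => K0 s t)).re := by
      have h1 : 0 < ∑ t, normSq (fun s => K0 s t) := by
        rw [sum_normSq]
        linarith
      obtain ⟨t, ht, h2⟩ := Finset.exists_lt_of_sum_lt (s := Finset.univ)
        (f := fun _ : n => (0 : ℝ)) (g := fun t => normSq (fun s => K0 s t)) (by simpa using h1)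
      exact ⟨t, ht, hcon t h2⟩
    have h1 := Finset.sum_lt_sum (fun t _ => hle t) hlt
    rw [← Finset.mul_sum, sum_normSq] at h1
    have h2 : c * (S / 4) ≤ c * fr2 K0 := mul_le_mul_of_nonneg_left hK hc0
    have h3 : c * (W / 8) ≤ c * (S / 4) := mul_le_mul_of_nonneg_left (by linarith) hc0
    have h4 : c * (W / 8) = W * (b0 * (2 * η + 5 * δ)) := by rw [hc]; ring
    linarith
  obtain ⟨s, hs0, hs⟩ := main
  refine ⟨s, hs0, ?_⟩
  rw [hH', q_eq] at hs
  rw [← hc]
  have h1 : g * normSq (fun a => K0 a s) ≤ (Pool.Agent.N658.TP.qf B φ +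
      (Real.log (NormedSpace.exp ((-β : ℂ) • H)).trace.re +
        β * Pool.Agent.N658.TP.qf H φ) / t) * normSq (fun a => K0 a s) :=
    mul_le_mul_of_nonneg_right hgle hs0.le
  rw [add_mul _ c]
  linarith

end Pool.Agent.Zk71.PE
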