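import Pool.Agent.N712.TP.ReachF

/-! # An interaction as an interaction on a larger box -/

set_option autoImplicit false

open scoped BigOperators Matrix

noncomputable section

namespace Pool.Agent.Zk71.PE

open Pool.Agent.TH235 Pool.Agent.TH235.PP Pool.Agent.TH235.PQ

open Classical in
/-- the interaction `h` on the larger box -/
def ext {d R : ℕ} (R2 : ℕ) (hR : R ≤ R2) (h : BoxOp d R) : BoxOp d R2 := fun s t =>
  if ∀ x : Fin R2 × Fin R2, (∀ y : Fin R × Fin R, (Fin.castLE hR y.1, Fin.castLE hR y.2) ≠ x) →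
    s x = t x then
    h (fun y => s (Fin.castLE hR y.1, Fin.castLE hR y.2))
      (fun y => t (Fin.castLE hR y.1, Fin.castLE hR y.2)) else 0

lemma sh_cast {R R2 L : ℕ} (hR : R ≤ R2) (u : Site L) (y : Fin R × Fin R) :
    sh u ((Fin.castLE hR y.1, Fin.castLE hR y.2) : Fin R2 × Fin R2) = sh u y := rfl

lemma term_ext {d R R2 L : ℕ} [NeZero L] (hR : R ≤ R2) (hL : R2 ≤ L) (h : BoxOp d R)
    (u : Site L) : term (ext R2 hR h) u = term h u := by
  classical
  ext s t
  unfold term ext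
  have hinj := sh_inj hL u
  by_cases hc : ∀ v, (∀ x : Fin R × Fin R, sh u x ≠ v) → s v = t v
  · rw [if_pos hc, if_pos, if_pos]
    · rfl
    · intro x hx
      refine hc _ fun y hy => ?_
      rw [← sh_cast hR u y] at hy
      exact hx y (hinj hy)
    · intro v hv
      refine hc v fun y hy => ?_
      exact hv (Fin.castLE hR y.1, Fin.castLE hR y.2) hy
  · rw [if_neg hc]
    by_cases hA : ∀ v, (∀ x : Fin R2 × Fin R2, sh u x ≠ v) → s v = t v
    · rw [if_pos hA, if_neg]
      intro hB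
      apply hc
      intro v hv
      by_cases hvb : ∃ x : Fin R2 × Fin R2, sh u x = v
      · obtain ⟨x, hx⟩ := hvb
        rw [← hx]
        refine hB x fun y hy => ?_
        apply hv y
        rw [← hx, ← hy, sh_cast]
      · push Not at hvb
        exact hA v hvb
    · rw [if_neg hA]

lemma ham_ext {d R R2 L : ℕ} [NeZero L] (hR : R ≤ R2) (hL : R2 ≤ L) (h : BoxOp d R) :
    ham (ext R2 hR h) L = ham h L := by
  unfold ham
  exact Finset.sum_congr rfl fun u _ => term_ext hR hL h u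

lemma herm_ext {d R R2 : ℕ} (hR : R ≤ R2) (h : BoxOp d R) (hh : h.IsHermitian) :
    (ext R2 hR h).IsHermitian := by
  classical
  refine Matrix.IsHermitian.ext fun s t => ?_
  unfold ext
  by_cases hc : ∀ x : Fin R2 × Fin R2,
      (∀ y : Fin R × Fin R, (Fin.castLE hR y.1, Fin.castLE hR y.2) ≠ x) → s x = t x
  · rw [if_pos hc, if_pos fun x hx => (hc x hx).symm]
    exact hh.apply _ _
  · rw [if_neg hc, if_neg fun hh => hc fun x hx => (hh x hx).symm, star_zero]

lemma entry_le {d R : ℕ} (h : BoxOp d R) (p q : Fin R × Fin R → Fin d) : ‖h p q‖ ≤ nJ h := by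
  unfold nJ
  refine le_trans ?_ (Finset.single_le_sum (f := fun p => ∑ q, ‖h p q‖)
    (fun p _ => Finset.sum_nonneg fun _ _ => norm_nonneg _) (Finset.mem_univ p))
  exact Finset.single_le_sum (f := fun q => ‖h p q‖) (fun _ _ => norm_nonneg _)
    (Finset.mem_univ q)

/-- the number of entries of an operator on the box -/
def cE (d R : ℕ) : ℝ := ((Fintype.card (Fin R × Fin R → Fin d) : ℕ) : ℝ) *
  ((Fintype.card (Fin R × Fin R → Fin d) : ℕ) : ℝ)

lemma cE_nonneg (d R : ℕ) : 0 ≤ cE d R := by unfold cE; positivity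

lemma nJ_ext {d R R2 : ℕ} (hR : R ≤ R2) (h : BoxOp d R) :
    nJ (ext R2 hR h) ≤ cE d R2 * nJ h := by
  classical
  have h1 : ∀ p q, ‖ext R2 hR h p q‖ ≤ nJ h := by
    intro p q
    unfold ext
    split_ifs
    · exact entry_le _ _ _
    · rw [norm_zero]; exact nJ_nonneg h
  calc nJ (ext R2 hR h) ≤ ∑ _p : Fin R2 × Fin R2 → Fin d, ∑ _q : Fin R2 × Fin R2 → Fin d, nJ h :=
        Finset.sum_le_sum fun p _ => Finset.sum_le_sum fun q _ => h1 p q
    _ = cE d R2 * nJ h := by
      simp only [Finset.sum_const, Finset.card_univ, nsmul_eq_mul]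
      unfold cE
      ring

lemma nJ_of_le {d R : ℕ} (h : BoxOp d R) (h1 : ∀ p q, ‖h p q‖ ≤ 1) : nJ h ≤ cE d R := by
  calc nJ h ≤ ∑ _p : Fin R × Fin R → Fin d, ∑ _q : Fin R × Fin R → Fin d, (1 : ℝ) :=
        Finset.sum_le_sum fun p _ => Finset.sum_le_sum fun q _ => h1 p q
    _ = cE d R := by
      simp only [Finset.sum_const, Finset.card_univ, nsmul_eq_mul, mul_one]
      unfold cE
      rfl

lemma term_add {d R L : ℕ} (h g : BoxOp d R) (u : Site L) :
    term (h + g) u = term h u + term g u := by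
  ext s t
  rw [Matrix.add_apply]
  unfold term
  split_ifs
  · rfl
  · rw [add_zero]

lemma ham_add {d R L : ℕ} [NeZero L] (h g : BoxOp d R) :
    ham (h + g) L = ham h L + ham g L := by
  unfold ham
  rw [← Finset.sum_add_distrib]
  exact Finset.sum_congr rfl fun u _ => term_add h g u

lemma nJ_add {d R : ℕ} (h g : BoxOp d R) : nJ (h + g) ≤ nJ h + nJ g := by
  unfold nJ
  rw [← Finset.sum_add_distrib]
  refine Finset.sum_le_sum fun p _ => ?_
  rw [← Finset.sum_add_distrib]
  refine Finset.sum_le_sum fun q _ => ?_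
  rw [Matrix.add_apply]
  exact norm_add_le _ _

/-- the combined interaction -/
def mixI {d R : ℕ} (h g : BoxOp d R) (a b : ℝ) : BoxOp d R := (a : ℂ) • h + (b : ℂ) • g

lemma mixI_herm {d R : ℕ} (h g : BoxOp d R) (a b : ℝ) (hh : h.IsHermitian) (hg : g.IsHermitian) :
    (mixI h g a b).IsHermitian :=
  (Pool.Agent.N712.TP.herm_smul h hh a).add (Pool.Agent.N712.TP.herm_smul g hg b)

lemma mixI_nJ {d R : ℕ} (h g : BoxOp d R) (a b J : ℝ) (ha : 0 ≤ a) (hb : 0 ≤ b)
    (hab : a + b ≤ 1) (hh : nJ h ≤ J) (hg : nJ g ≤ J) : nJ (mixI h g a b) ≤ J := by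
  have hJ : 0 ≤ J := (nJ_nonneg h).trans hh
  refine (nJ_add _ _).trans ?_
  rw [Pool.Agent.N712.TP.nJ_smul, Pool.Agent.N712.TP.nJ_smul, abs_of_nonneg ha, abs_of_nonneg hb]
  have h1 := mul_le_mul_of_nonneg_left hh ha
  have h2 := mul_le_mul_of_nonneg_left hg hb
  nlinarith

lemma mixI_ham {d R L : ℕ} [NeZero L] (h g : BoxOp d R) (a b : ℝ) :
    ham (mixI h g a b) L = (a : ℂ) • ham h L + (b : ℂ) • ham g L := by
  unfold mixI
  rw [ham_add, Pool.Agent.N712.TP.ham_smul, Pool.Agent.N712.TP.ham_smul]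

end Pool.Agent.Zk71.PE
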