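import Pool.Agent.Zk71.PE.ReachG
import Pool.Agent.N395.TP.Free1

/-! # Bond dimension in terms of the free energy -/

set_option autoImplicit false

open scoped BigOperators ComplexConjugate Classical InnerProductSpace Matrix ComplexOrder
open scoped Matrix.Norms.L2Operator

noncomputable section

namespace Pool.Agent.Zk71.PE

open Pool.Agent.Y738.PE Pool.Agent.N658.TP Pool.Agent.N658.TP.A2 Pool.Agent.N395.TP

/-- The finite size criterion. -/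
def StmFreeG : Prop := ∀ (d R' : ℕ), 2 ≤ d → ∀ h : Pool.Agent.TH235.PP.BoxOp d (R' + 1),
  h.IsHermitian → ∀ R : Finset (ℤ × ℤ), ∃ C : ℝ, 0 < C ∧ ∀ ε : ℝ, 0 < ε → ε ≤ 1 →
  ∀ β : ℝ, 0 ≤ β → ∀ (n : ℕ) [NeZero (2 * n)], C * (1 + β) / ε ≤ ((2 * n : ℕ) : ℝ) →
  ∀ κ : ℝ, 0 ≤ κ → FreeLe h (2 * n) β κ →
  ∃ L₀ : ℕ, ∀ (L : ℕ) [NeZero L], L₀ ≤ L → ∀ Ψ : Conf d L → ℂ,
    IsGround (fun x y : BConf d (R' + 1) => h x y) L Ψ → TransInv Ψ →
    ∃ (D : ℕ) (A : Tensor d D),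
      (D : ℝ) ≤ Real.exp (C * (1 + β + κ / ε + Real.log ((2 * n : ℕ) : ℝ))) ∧
      ∀ (L' : ℕ) [NeZero L'], C * ((2 * n : ℕ) : ℝ) ^ 4 ≤ L' →
        nrm (pepsX A L') ≠ 0 ∧ Close R Ψ (pepsX A L') ε

theorem freeG (hF : StmReachG) (hE : StmEnMul) : StmFreeG := by
  intro d R' hd h hh R
  obtain ⟨r, hr, hreg⟩ := region_of_box d R
  obtain ⟨c, hc1, hfin⟩ := fin_box pipe' d r hd hr
  obtain ⟨C₁, hC₁, hreach⟩ := hF d r R' (Pool.Agent.TH235.PP.nJ h) hd hr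
  have hherm : Herm (fun x y : BConf d (R' + 1) => h x y) := fun σ τ => (hh.apply τ σ).symm
  obtain ⟨C₂, hC₂, hcmp⟩ := energy_cmp hE d (R' + 1) hd (by omega)
    (fun x y : BConf d (R' + 1) => h x y) hherm
  obtain ⟨a, ha⟩ : ∃ a : ℝ, a = 2 * c * (C₁ + 1) := ⟨_, rfl⟩
  have ha0 : 2 ≤ a := by rw [ha]; nlinarith
  obtain ⟨C, hCdef⟩ : ∃ C : ℝ, C = c + 4 * C₁ * (1 + a * (C₂ + 1)) + 4 * C₁ + 4 * C₁ * a + C₁ * a +
    2 * c + r + (R' + 1) := ⟨_, rfl⟩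
  have hr0 : (0 : ℝ) ≤ r := Nat.cast_nonneg r
  have hR0 : (0 : ℝ) ≤ R' := Nat.cast_nonneg R'
  have hc0 : 0 < c := by linarith
  have p1 : 0 ≤ 4 * C₁ * (1 + a * (C₂ + 1)) := by positivity
  have p2 : 0 ≤ 4 * C₁ * a := by positivity
  have p3 : 0 ≤ C₁ * a := by positivity
  have hC1 : 1 ≤ C := by rw [hCdef]; linarith
  refine ⟨C, by linarith, ?_⟩
  intro ε hε hε1 β hβ n _ hm κ hκ hfree
  obtain ⟨φ, hφ, hφ2⟩ := hfree
  have hn0 : 2 * n ≠ 0 := NeZero.ne (2 * n)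
  obtain ⟨m, hmdef⟩ : ∃ m : ℝ, m = ((2 * n : ℕ) : ℝ) := ⟨_, rfl⟩
  have hm1 : 1 ≤ m := by
    rw [hmdef]
    exact_mod_cast Nat.one_le_iff_ne_zero.2 hn0
  rw [← hmdef] at hm
  -- consequences of the lower bound for `m`
  have hmC : C * (1 + β) ≤ m * ε := by rwa [div_le_iff₀ hε] at hm
  have hmC2 : C ≤ m := by nlinarith
  have hqm : R' + 1 ≤ 2 * n := by
    have : ((R' + 1 : ℕ) : ℝ) ≤ ((2 * n : ℕ) : ℝ) := by
      rw [← hmdef]
      push_cast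
      linarith
    exact_mod_cast this
  obtain ⟨L₀, hL₀⟩ := hcmp (2 * n) hqm
  refine ⟨max (max L₀ (2 * n)) r, ?_⟩
  intro L _ hL Ψ hΨ hTI
  have hTIe := transInv_expec Ψ hΨ.1 hTI
  have hen := hL₀ L (by omega) Ψ hΨ hTI φ hφ
  rw [← hmdef] at hen hφ2
  -- the parameters
  obtain ⟨ε₁, hε₁⟩ : ∃ ε₁ : ℝ, ε₁ = ε / a := ⟨_, rfl⟩
  have hε₁0 : 0 < ε₁ := by rw [hε₁]; positivity
  have hε₁1 : ε₁ ≤ 1 := by
    rw [hε₁, div_le_one (by linarith)]; linarith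
  obtain ⟨κ₁, hκ₁⟩ : ∃ κ₁ : ℝ, κ₁ = κ + C₂ * β / m := ⟨_, rfl⟩
  have hκ₁0 : 0 ≤ κ₁ := by rw [hκ₁]; positivity
  have hcond : C₁ * (1 + β) / ε₁ ≤ ((2 * n : ℕ) : ℝ) := by
    rw [← hmdef, div_le_iff₀ hε₁0, hε₁, ← mul_div_assoc, le_div_iff₀ (by linarith)]
    have : C₁ * a * (1 + β) ≤ C * (1 + β) := by
      refine mul_le_mul_of_nonneg_right ?_ (by linarith)
      rw [hCdef]; linarith
    linarith
  have hZ : Real.log (NormedSpace.exp (((-β : ℝ) : ℂ) • Pool.Agent.TH235.PP.ham h (2 * n))).trace.re +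
      β * (((2 * n : ℕ) : ℝ) ^ 2 * (expec Ψ 0 (fun x y => h x y)).re) ≤
      κ₁ * ((2 * n : ℕ) : ℝ) ^ 2 := by
    rw [← hmdef]
    have h1 := mul_le_mul_of_nonneg_left hen hβ
    have e1 : κ₁ * m ^ 2 = κ * m ^ 2 + β * (C₂ * m) := by
      rw [hκ₁]; field_simp
    rw [e1]
    linarith
  obtain ⟨f, hf, hR⟩ := hreach n L (by omega) ε₁ hε₁0 hε₁1 β hβ hcond Ψ hΨ.1 hTIe h hh le_rfl κ₁
    hκ₁0 hZ
  rw [← hmdef] at hf
  have hη : C₁ * ε₁ ≤ ε / (2 * c) := by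
    rw [hε₁, ha, ← mul_div_assoc, div_le_div_iff₀ (by positivity) (by positivity)]
    nlinarith [mul_pos hε hc0]
  have hc3 : 2 * c / ε ≤ ((2 * n : ℕ) : ℝ) := by
    rw [← hmdef, div_le_iff₀ hε]
    have : 2 * c ≤ C := by rw [hCdef]; linarith
    nlinarith
  obtain ⟨D, A, hD, hA⟩ := hfin ε hε hε1 (2 * n) f L hc3 (by omega) _ hf Ψ hΨ.1
    (reach_mono hR hη)
  rw [← hmdef] at hD hA
  refine ⟨D, A, hD.trans (Real.exp_le_exp.2 ?_), ?_⟩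
  · rw [← hmdef]
    have hlog : 0 ≤ Real.log m := Real.log_nonneg hm1
    have hbm : β / (m * ε) ≤ 1 := by
      rw [div_le_one (by positivity)]
      nlinarith
    have e2 : κ₁ / ε₁ = a * (κ / ε + C₂ * (β / (m * ε))) := by
      rw [hκ₁, hε₁]; field_simp
    have hκε : 0 ≤ κ / ε := by positivity
    have h3 : κ₁ / ε₁ ≤ a * (κ / ε + C₂) := by
      rw [e2]
      refine mul_le_mul_of_nonneg_left ?_ (by linarith)
      have := mul_le_mul_of_nonneg_left hbm hC₂.le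
      linarith
    obtain ⟨l, hl⟩ : ∃ l, l = Real.log m := ⟨_, rfl⟩
    rw [← hl] at hlog ⊢
    have h5 : 4 * (C₁ * (1 + β + κ₁ / ε₁ + l)) ≤ 4 * (C₁ * (1 + β + a * (κ / ε + C₂) + l)) := by
      have := mul_le_mul_of_nonneg_left h3 hC₁.le
      linarith
    have h6 : 4 * (C₁ * (1 + β + a * (κ / ε + C₂) + l)) =
        4 * C₁ * (1 + a * C₂) + 4 * C₁ * β + 4 * C₁ * a * (κ / ε) + 4 * C₁ * l := by ring
    have e3 : 4 * C₁ * (1 + a * (C₂ + 1)) = 4 * C₁ * (1 + a * C₂) + 4 * C₁ * a := by ring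
    have p4 : 0 ≤ 4 * C₁ * (1 + a * C₂) := by positivity
    have h7 : 4 * C₁ * (1 + a * C₂) ≤ C := by
      rw [hCdef, e3]
      linarith
    have h8 : 4 * C₁ * β ≤ C * β := by
      refine mul_le_mul_of_nonneg_right ?_ hβ
      rw [hCdef]; linarith
    have h9 : 4 * C₁ * a * (κ / ε) ≤ C * (κ / ε) := by
      refine mul_le_mul_of_nonneg_right ?_ hκε
      rw [hCdef]; linarith
    have h10 : (c + 4 * C₁) * l ≤ C * l := by
      refine mul_le_mul_of_nonneg_right ?_ hlog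
      rw [hCdef]; linarith
    have h11 : C * (1 + β + κ / ε + l) = C + C * β + C * (κ / ε) + C * l := by ring
    rw [h11]
    linarith
  · intro L' _ hL'
    rw [← hmdef] at hL'
    have hm4 : m ≤ m ^ 4 := by
      calc m = m ^ 1 := (pow_one m).symm
        _ ≤ m ^ 4 := pow_le_pow_right₀ hm1 (by norm_num)
    refine hreg D L A Ψ (c * m ^ 4) ε (by omega) ?_ hΨ.1 hTIe hA L' (le_trans ?_ hL')
    · have h1 : (r : ℝ) ≤ m := by
        have : (r : ℝ) ≤ C := by rw [hCdef]; linarith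
        linarith
      have h2 : m ^ 4 ≤ c * m ^ 4 := by
        have : (0 : ℝ) ≤ m ^ 4 := by positivity
        nlinarith
      linarith
    · refine mul_le_mul_of_nonneg_right ?_ (by positivity)
      rw [hCdef]; linarith

end Pool.Agent.Zk71.PE
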