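import Pool.Agent.Zk71.PE.FreeG
import Pool.Agent.N658.TP.Stm5

/-! # Polynomial bond dimension: the thermodynamic and the spectral condition -/

set_option autoImplicit false

open scoped BigOperators ComplexConjugate Classical InnerProductSpace Matrix ComplexOrder
open scoped Matrix.Norms.L2Operator

noncomputable section

namespace Pool.Agent.Zk71.PE

open Pool.Agent.Y738.PE Pool.Agent.N658.TP Pool.Agent.N658.TP.Sp

/-- The conclusion: polynomial bond dimension, for every translation invariant ground state of every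
large torus one tensor for all tori. -/
def PolyApp {d R' : ℕ} (h : Pool.Agent.TH235.PP.BoxOp d (R' + 1)) (R : Finset (ℤ × ℤ)) : Prop :=
  ∃ N : ℕ, ∀ ε : ℝ, 0 < ε → ε ≤ 1 →
  ∃ L₀ : ℕ, ∀ (L : ℕ) [NeZero L], L₀ ≤ L → ∀ Ψ : Conf d L → ℂ,
    IsGround (fun x y : BConf d (R' + 1) => h x y) L Ψ → TransInv Ψ →
    ∃ (D : ℕ) (A : Tensor d D), (D : ℝ) ≤ (2 / ε) ^ N ∧
      ∀ (L' : ℕ) [NeZero L'], (2 / ε) ^ N ≤ (L' : ℝ) →
        nrm (pepsX A L') ≠ 0 ∧ Close R Ψ (pepsX A L') ε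

theorem num_fin (C₁ b ε : ℝ) (hC₁ : 0 < C₁) (hb : 0 ≤ b) : ∃ N : ℕ, ∀ (ε β κ m : ℝ), 0 < ε →
    ε ≤ 1 → 1 ≤ m → β ≤ b * Real.log (2 / ε) → κ / ε ≤ b * Real.log (2 / ε) →
    Real.log m ≤ b * Real.log (2 / ε) →
    Real.exp (C₁ * (1 + β + κ / ε + Real.log m)) ≤ (2 / ε) ^ N ∧ C₁ * m ^ 4 ≤ (2 / ε) ^ N := by
  have hl2 : 0 < Real.log 2 := Real.log_pos (by norm_num)
  obtain ⟨N, hN⟩ := exists_nat_ge (C₁ * (1 / Real.log 2 + 3 * b) + (C₁ / Real.log 2 + 4 * b))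
  refine ⟨N, fun ε β κ m hε hε1 hm hβ hκ hlm => ?_⟩
  have h2 : 0 < 2 / ε := by positivity
  obtain ⟨l, hl⟩ : ∃ l, l = Real.log (2 / ε) := ⟨_, rfl⟩
  rw [← hl] at hβ hκ hlm
  have hll : Real.log 2 ≤ l := by
    rw [hl]
    exact Real.log_le_log (by norm_num) (by rw [le_div_iff₀ hε]; linarith)
  have hl0 : 0 < l := by linarith
  have h1l : 1 ≤ 1 / Real.log 2 * l := by
    rw [one_div, inv_mul_eq_div, le_div_iff₀ hl2]
    linarith
  have hpow : (2 / ε) ^ N = Real.exp (N * l) := by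
    rw [Real.exp_nat_mul, hl, Real.exp_log h2]
  have hNl := mul_le_mul_of_nonneg_right hN hl0.le
  have q1 : 0 ≤ (C₁ / Real.log 2 + 4 * b) * l := by positivity
  have q2 : 0 ≤ C₁ * (1 / Real.log 2 + 3 * b) * l := by positivity
  rw [hpow]
  constructor
  · refine Real.exp_le_exp.2 ?_
    have h3 : 1 + β + κ / ε + Real.log m ≤ (1 / Real.log 2 + 3 * b) * l := by nlinarith
    have h4 := mul_le_mul_of_nonneg_left h3 hC₁.le
    nlinarith
  · have h3 : C₁ ≤ Real.exp C₁ := by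
      have := Real.add_one_le_exp C₁
      linarith
    have h4 : m ^ 4 = Real.exp (4 * Real.log m) := by
      rw [show (4 : ℝ) * Real.log m = ((4 : ℕ) : ℝ) * Real.log m by norm_num, Real.exp_nat_mul,
        Real.exp_log (by linarith)]
    have h5 : C₁ * m ^ 4 ≤ Real.exp (C₁ + 4 * Real.log m) := by
      rw [h4, Real.exp_add]
      exact mul_le_mul_of_nonneg_right h3 (Real.exp_pos _).le
    refine h5.trans (Real.exp_le_exp.2 ?_)
    have h6 : C₁ ≤ C₁ / Real.log 2 * l := by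
      rw [div_mul_eq_mul_div, le_div_iff₀ hl2]
      exact mul_le_mul_of_nonneg_left hll hC₁.le
    nlinarith

/-- The thermodynamic condition. -/
theorem thermo (h1 : StmFreeG) (h2 : StmFreeDown) (d R' : ℕ) (hd : 2 ≤ d)
    (h : Pool.Agent.TH235.PP.BoxOp d (R' + 1)) (hh : h.IsHermitian) (R : Finset (ℤ × ℤ))
    (a c : ℝ) (ha : 0 ≤ a) (hc : 0 < c)
    (H : ∀ β : ℝ, 1 ≤ β → ∃ m₀ : ℕ, ∀ (m : ℕ) [NeZero m], m₀ ≤ m →
      FreeLe h m β (a * Real.exp (-(c * β)))) : PolyApp h R := by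
  obtain ⟨C₁, hC₁, H1⟩ := h1 d R' hd h hh R
  obtain ⟨C₂, hC₂, H2⟩ := h2 d R' hd h hh
  have hl2 : 0 < Real.log 2 := Real.log_pos (by norm_num)
  obtain ⟨K₀, hK₀⟩ : ∃ K₀ : ℝ, K₀ = 2 + 1 / c := ⟨_, rfl⟩
  have hK₀0 : 0 < K₀ := by rw [hK₀]; positivity
  obtain ⟨K₁, hK₁⟩ : ∃ K₁ : ℝ, K₁ = 2 * (C₁ * K₀ + R' + 2) := ⟨_, rfl⟩
  have hR0 : (0 : ℝ) ≤ R' := Nat.cast_nonneg _
  have hK₁1 : 4 ≤ K₁ := by
    rw [hK₁]
    have : 0 ≤ C₁ * K₀ := mul_nonneg hC₁.le hK₀0.le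
    linarith
  have hlK : 0 ≤ Real.log K₁ := Real.log_nonneg (by linarith)
  obtain ⟨b, hb⟩ : ∃ b : ℝ, b = (1 / Real.log 2 + 1 / c) +
    (a / Real.log 2 + C₂ / C₁ * (2 / Real.log 2 + 1 / c)) + (Real.log K₁ / Real.log 2 + 2) :=
    ⟨_, rfl⟩
  have hp1 : 0 ≤ 1 / Real.log 2 + 1 / c := by positivity
  have hp2 : 0 ≤ a / Real.log 2 + C₂ / C₁ * (2 / Real.log 2 + 1 / c) := by positivity
  have hp3 : 0 ≤ Real.log K₁ / Real.log 2 + 2 := by positivity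
  obtain ⟨N, hN⟩ := num_fin C₁ b 1 hC₁ (by rw [hb]; linarith)
  refine ⟨N, fun ε hε hε1 => ?_⟩
  obtain ⟨l, hl⟩ : ∃ l, l = Real.log (2 / ε) := ⟨_, rfl⟩
  have hll : Real.log 2 ≤ l := by
    rw [hl]
    exact Real.log_le_log (by norm_num) (by rw [le_div_iff₀ hε]; linarith)
  have hl0 : 0 < l := by linarith
  have h1l : 1 ≤ 1 / Real.log 2 * l := by
    rw [one_div, inv_mul_eq_div, le_div_iff₀ hl2]
    linarith
  have hle : 0 ≤ Real.log (1 / ε) := Real.log_nonneg (by rw [le_div_iff₀ hε]; linarith)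
  have hlel : Real.log (1 / ε) ≤ l := by
    rw [hl]
    exact Real.log_le_log (by positivity) (div_le_div_of_nonneg_right (by norm_num) hε.le)
  have hle1 : Real.log (1 / ε) * ε ≤ 1 := by
    have h3 : Real.log (1 / ε) ≤ 1 / ε := by
      have := Real.log_le_sub_one_of_pos (show (0 : ℝ) < 1 / ε by positivity)
      linarith
    calc Real.log (1 / ε) * ε ≤ 1 / ε * ε := mul_le_mul_of_nonneg_right h3 hε.le
      _ = 1 := by field_simp
  obtain ⟨β, hβ⟩ : ∃ β : ℝ, β = 1 + Real.log (1 / ε) / c := ⟨_, rfl⟩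
  have hβ1 : 1 ≤ β := by
    rw [hβ]
    have : 0 ≤ Real.log (1 / ε) / c := by positivity
    linarith
  have hβ0 : 0 ≤ β := by linarith
  have hβ2 : (1 + β) * ε ≤ K₀ := by
    have h3 : (1 + β) * ε = 2 * ε + Real.log (1 / ε) * ε / c := by rw [hβ]; ring
    rw [h3, hK₀]
    have h4 : Real.log (1 / ε) * ε / c ≤ 1 / c := div_le_div_of_nonneg_right hle1 hc.le
    linarith
  have hβl : β ≤ (1 / Real.log 2 + 1 / c) * l := by
    rw [hβ]
    have : Real.log (1 / ε) / c ≤ 1 / c * l := by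
      rw [div_eq_mul_one_div, mul_comm]
      exact mul_le_mul_of_nonneg_left hlel (by positivity)
    nlinarith
  obtain ⟨κ₀, hκ₀⟩ : ∃ κ₀ : ℝ, κ₀ = a * Real.exp (-(c * β)) := ⟨_, rfl⟩
  have hκ₀0 : 0 ≤ κ₀ := by rw [hκ₀]; positivity
  have hβa : κ₀ / ε ≤ a := by
    have h3 : Real.exp (-(c * β)) = Real.exp (-c) * ε := by
      have h4 : -(c * β) = -c + Real.log ε := by
        rw [hβ, one_div, Real.log_inv]
        field_simp
        ring
      rw [h4, Real.exp_add, Real.exp_log hε]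
    rw [hκ₀, h3]
    have h4 : a * (Real.exp (-c) * ε) / ε = a * Real.exp (-c) := by field_simp
    rw [h4]
    have h5 : Real.exp (-c) ≤ 1 := Real.exp_le_one_iff.2 (by linarith)
    exact mul_le_of_le_one_right ha h5
  obtain ⟨m₀, hm₀⟩ := H β hβ1
  rw [← hκ₀] at hm₀
  obtain ⟨n, hn⟩ : ∃ n : ℕ, n = ⌈C₁ * (1 + β) / ε⌉₊ + R' + 1 := ⟨_, rfl⟩
  have hn0 : 0 < n := by omega
  have hnR : R' + 1 ≤ n := by omega
  have i1 : NeZero (2 * n) := ⟨by omega⟩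
  have i2 : NeZero (2 * n * (m₀ + 1)) := ⟨by positivity⟩
  have hX0 : 0 ≤ C₁ * (1 + β) / ε := by positivity
  have hn1 : C₁ * (1 + β) / ε ≤ n := by
    rw [hn]
    push_cast
    have := Nat.le_ceil (C₁ * (1 + β) / ε)
    linarith
  have hn2 : C₁ * (1 + β) / ε ≤ ((2 * n : ℕ) : ℝ) := by
    push_cast
    have : (0 : ℝ) ≤ n := Nat.cast_nonneg _
    linarith
  have hn3 : ((2 * n : ℕ) : ℝ) ≤ K₁ * (1 / ε) ^ 2 := by
    have h3 := Nat.ceil_lt_add_one hX0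
    have h4 : C₁ * (1 + β) / ε ≤ C₁ * K₀ * (1 / ε) ^ 2 := by
      have h5 : C₁ * (1 + β) / ε = C₁ * ((1 + β) * ε) * (1 / ε) ^ 2 := by
        field_simp
      rw [h5]
      exact mul_le_mul_of_nonneg_right (mul_le_mul_of_nonneg_left hβ2 hC₁.le) (by positivity)
    have h6 : 1 ≤ (1 / ε) ^ 2 := by
      have : 1 ≤ 1 / ε := by rw [le_div_iff₀ hε]; linarith
      nlinarith
    have h7 : (R' : ℝ) + 2 ≤ (R' + 2) * (1 / ε) ^ 2 := le_mul_of_one_le_right (by positivity) h6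
    rw [hn, hK₁]
    push_cast
    nlinarith
  have hlog : Real.log ((2 * n : ℕ) : ℝ) ≤ (Real.log K₁ / Real.log 2 + 2) * l := by
    have h3 : (0 : ℝ) < ((2 * n : ℕ) : ℝ) := by exact_mod_cast (by omega : 0 < 2 * n)
    have h4 := Real.log_le_log h3 hn3
    rw [Real.log_mul (by linarith) (by positivity), Real.log_pow] at h4
    have h7 : Real.log K₁ ≤ Real.log K₁ / Real.log 2 * l := by
      calc Real.log K₁ = Real.log K₁ / Real.log 2 * Real.log 2 := by field_simp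
        _ ≤ Real.log K₁ / Real.log 2 * l := mul_le_mul_of_nonneg_left hll (by positivity)
    rw [Nat.cast_ofNat (n := 2)] at h4
    linarith
  have hm1 : (1 : ℝ) ≤ ((2 * n : ℕ) : ℝ) := by exact_mod_cast (by omega : 1 ≤ 2 * n)
  have hF := H2 n (m₀ + 1) hnR β κ₀ hβ0 (hm₀ (2 * n * (m₀ + 1)) (by nlinarith))
  obtain ⟨κ, hκ⟩ : ∃ κ : ℝ, κ = κ₀ + C₂ * β / (2 * n : ℕ) := ⟨_, rfl⟩
  rw [← hκ] at hF
  have hκ0 : 0 ≤ κ := by rw [hκ]; positivity
  have hκε : κ / ε ≤ (a / Real.log 2 + C₂ / C₁ * (2 / Real.log 2 + 1 / c)) * l := by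
    have h3 : C₂ * β / (2 * n : ℕ) / ε ≤ C₂ / C₁ * (1 + β) := by
      have h4 : (0 : ℝ) < ((2 * n : ℕ) : ℝ) := by linarith
      have h5 : C₁ * (1 + β) ≤ ((2 * n : ℕ) : ℝ) * ε := by rwa [div_le_iff₀ hε] at hn2
      rw [div_div, div_le_iff₀ (by positivity)]
      calc C₂ * β ≤ C₂ * (1 + β) * 1 := by nlinarith
        _ ≤ C₂ * (1 + β) * (1 + β) := mul_le_mul_of_nonneg_left (by linarith) (by positivity)
        _ = C₂ / C₁ * (1 + β) * (C₁ * (1 + β)) := by field_simp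
        _ ≤ C₂ / C₁ * (1 + β) * (((2 * n : ℕ) : ℝ) * ε) :=
            mul_le_mul_of_nonneg_left h5 (by positivity)
    have h5 : κ / ε = κ₀ / ε + C₂ * β / (2 * n : ℕ) / ε := by rw [hκ, add_div]
    have h6 : a ≤ a / Real.log 2 * l := by
      rw [div_mul_eq_mul_div, le_div_iff₀ hl2]
      exact mul_le_mul_of_nonneg_left hll ha
    have h7 : 1 + β ≤ (2 / Real.log 2 + 1 / c) * l := by
      have : (2 : ℝ) / Real.log 2 = 1 / Real.log 2 + 1 / Real.log 2 := by ring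
      rw [this]
      nlinarith
    have h8 : C₂ / C₁ * (1 + β) ≤ C₂ / C₁ * ((2 / Real.log 2 + 1 / c) * l) :=
      mul_le_mul_of_nonneg_left h7 (by positivity)
    rw [h5]
    nlinarith
  obtain ⟨hD1, hL1⟩ := hN ε β κ ((2 * n : ℕ) : ℝ) hε hε1 hm1
    (by rw [← hl, hb]; nlinarith [mul_nonneg hp2 hl0.le, mul_nonneg hp3 hl0.le])
    (by rw [← hl, hb]; nlinarith [mul_nonneg hp1 hl0.le, mul_nonneg hp3 hl0.le])
    (by rw [← hl, hb]; nlinarith [mul_nonneg hp1 hl0.le, mul_nonneg hp2 hl0.le])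
  obtain ⟨L₀, hL₀⟩ := H1 ε hε hε1 β hβ0 n hn2 κ hκ0 hF
  refine ⟨L₀, fun L _ hL Ψ hΨ hT => ?_⟩
  obtain ⟨D, A, hD, hA⟩ := hL₀ L hL Ψ hΨ hT
  exact ⟨D, A, hD.trans hD1, fun L' _ hL' => hA L' (hL1.trans hL')⟩

end Pool.Agent.Zk71.PE
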