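import Pool.Agent.Zk71.PE.Col
import Pool.Agent.Zk71.PE.Ext

/-! # PEPS of small energy for one interaction near the thermal state of another one -/

set_option autoImplicit false

open scoped BigOperators Matrix InnerProductSpace
open Finset Pool.Agent.TH235.PP Pool.Agent.TH235.PQ

noncomputable section

namespace Pool.Agent.Zk71.PE

open Pool.Agent.N658.TP Pool.Agent.N674.TP

/-- The statement: both exponentials in one expansion. -/
def StmLowK : Prop := ∀ (d R' : ℕ) (J : ℝ), 2 ≤ d → ∃ C : ℝ, 0 < C ∧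
  ∀ (L : ℕ) [NeZero L], 2 ≤ L → R' + 1 ≤ L → ∀ (β t δ : ℝ), 0 ≤ β → 2 ≤ t → 0 < δ → δ ≤ 1 →
  ∀ h g : BoxOp d (R' + 1), h.IsHermitian → g.IsHermitian → nJ h ≤ J → nJ g ≤ J →
  ∀ φ : (Site L → Fin d) → ℂ, normSq φ = 1 →
  ∃ (D : ℕ) (ψ : (Site L → Fin d) → ℂ),
    (D : ℝ) ≤ Real.exp (C * (β + t + Real.log L + Real.log (1 / δ))) ∧ IsPEPS D ψ ∧
    normSq ψ = 1 ∧
    qf (ham g L) ψ ≤ qf (ham g L) φ +
      (Real.log (NormedSpace.exp ((-β : ℂ) • ham h L)).trace.re + β * qf (ham h L) φ) / t +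
        (L : ℝ) ^ 2 * δ

open scoped Matrix.Norms.L2Operator in
theorem lowK (h1 : StmFrob) (hPB : StmPB) : StmLowK := by
  intro d R' J hd
  obtain ⟨J', hJ'⟩ : ∃ J' : ℝ, J' = max J 1 := ⟨_, rfl⟩
  have hJ1 : 1 ≤ J' := by rw [hJ']; exact le_max_right _ _
  have hJJ : J ≤ J' := by rw [hJ']; exact le_max_left _ _
  obtain ⟨K, hK⟩ : ∃ K : ℕ, K = (R' + 1) ^ 4 := ⟨_, rfl⟩
  have hK1 : 1 ≤ K := by rw [hK]; exact Nat.one_le_pow _ _ (Nat.succ_pos _)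
  have hK1' : (1 : ℝ) ≤ K := by exact_mod_cast hK1
  obtain ⟨c1, hc1⟩ : ∃ c1 : ℝ, c1 = 100 * ((K : ℝ) + 1) ^ 2 := ⟨_, rfl⟩
  obtain ⟨c2, hc2⟩ : ∃ c2 : ℝ, c2 = 10 * (K : ℝ) * ((K : ℝ) + 1) ^ 2 := ⟨_, rfl⟩
  have hc10 : 0 ≤ c1 := by rw [hc1]; positivity
  have hc20 : 0 < c2 := by rw [hc2]; positivity
  obtain ⟨P, hP⟩ : ∃ P : ℝ, P = ((Fintype.card (Lm d (R' + 1)) : ℕ) : ℝ) := ⟨_, rfl⟩
  have hP0 : 0 ≤ P := by rw [hP]; exact Nat.cast_nonneg _
  obtain ⟨Q, hQ⟩ : ∃ Q : ℝ, Q = ((2 * R' + 1 : ℕ) : ℝ) ^ 2 := ⟨_, rfl⟩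
  have hQ0 : 0 ≤ Q := by rw [hQ]; positivity
  obtain ⟨v, hv⟩ : ∃ v : ℝ, v = Real.log (48 * J') := ⟨_, rfl⟩
  have hv0 : 0 ≤ v := by rw [hv]; exact Real.log_nonneg (by linarith)
  obtain ⟨C1, hC1⟩ : ∃ C1 : ℝ, C1 = 2 * (c2 * (c1 * (1 + J') + (7 + v)) + 1) + 2 := ⟨_, rfl⟩
  have hC10 : 0 ≤ C1 := by rw [hC1]; positivity
  have hlogd : 0 < Real.log d := Real.log_pos (by exact_mod_cast hd)
  refine ⟨4 * (P + 1) * C1 * Q + 4 * Real.log d, by positivity, ?_⟩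
  intro L _ hL hRL β₀ t δ hβ₀ ht2 hδ hδ1 h₀ g₀ hh₀ hg₀ hJh hJg φ hφ
  obtain ⟨β, hβd⟩ : ∃ β : ℝ, β = (β₀ + t) / 2 := ⟨_, rfl⟩
  have hβ : 1 ≤ β := by rw [hβd]; linarith
  have hβ0 : 0 < β := by linarith
  obtain ⟨h, hhd⟩ : ∃ h : BoxOp d (R' + 1), h = mixI h₀ g₀ (β₀ / (2 * β)) (t / (2 * β)) :=
    ⟨_, rfl⟩
  have hh : h.IsHermitian := by rw [hhd]; exact mixI_herm _ _ _ _ hh₀ hg₀
  have hnJ : nJ h ≤ J := by
    rw [hhd]
    refine mixI_nJ _ _ _ _ J (by positivity) (by positivity) ?_ hJh hJg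
    rw [← add_div, hβd, div_le_one (by linarith)]
    linarith
  have hham : ham h L = ((β₀ / (2 * β) : ℝ) : ℂ) • ham h₀ L + ((t / (2 * β) : ℝ) : ℂ) • ham g₀ L := by
    rw [hhd, mixI_ham]
  have hL2 : (2 : ℝ) ≤ L := by exact_mod_cast hL
  obtain ⟨lam, hlam⟩ : ∃ lam, lam = Real.log L := ⟨_, rfl⟩
  have hlam0 : 0 ≤ lam := by rw [hlam]; exact Real.log_nonneg (by linarith)
  obtain ⟨T, hT⟩ : ∃ T, T = Real.log (1 / δ) := ⟨_, rfl⟩
  have hT0 : 0 ≤ T := by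
    rw [hT]
    exact Real.log_nonneg (by rw [le_div_iff₀ hδ]; linarith)
  obtain ⟨δ', hδ'⟩ : ∃ δ' : ℝ, δ' = δ / (48 * J') := ⟨_, rfl⟩
  have hδ'0 : 0 < δ' := by rw [hδ']; positivity
  have hδ'2 : δ' ≤ 1 / 2 := by
    rw [hδ', div_le_iff₀ (by positivity)]
    linarith
  have hlogδ : Real.exp (-(v + T)) = δ' := by
    rw [hv, hT, ← Real.log_mul (by positivity) (by positivity), Real.exp_neg,
      Real.exp_log (by positivity), hδ']
    field_simp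
  have hNexp : ((L ^ 2 : ℕ) : ℝ) = Real.exp (2 * lam) := by
    rw [hlam, two_mul, Real.exp_add, Real.exp_log (by linarith)]; push_cast; ring
  obtain ⟨N, hN⟩ : ∃ N : ℝ, N = ((L ^ 2 : ℕ) : ℝ) := ⟨_, rfl⟩
  have hNL : N = (L : ℝ) ^ 2 := by rw [hN]; push_cast; ring
  have hN1 : (1 : ℝ) ≤ N := by
    rw [hN, hNexp]; exact Real.one_le_exp (by linarith)
  have hB0 : 0 ≤ β * J' := by positivity
  obtain ⟨q, hM1, hM2, hM3⟩ := par_q (β * J') N (v + T) hB0 hN1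
  rw [hlogδ] at hM3
  have hM0 : (0 : ℝ) < tm q := by linarith
  obtain ⟨r, hr1, hr2⟩ := par_r c1 c2 (1 + β * J') (2 * lam + (v + T) + 4) hc20 (by positivity)
  obtain ⟨κ, hκ⟩ : ∃ κ : ℝ, κ = β / tm q := ⟨_, rfl⟩
  have hκ0 : 0 < κ := by rw [hκ]; positivity
  have hκM : κ * tm q = β := by rw [hκ]; field_simp
  obtain ⟨y0, hy0⟩ : ∃ y0 : ℝ, y0 = κ * J' := ⟨_, rfl⟩
  have hy00 : 0 ≤ y0 := by rw [hy0]; positivity
  have hNy : N * y0 ≤ 1 / 80 := by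
    have : N * y0 = N * (β * J') / tm q := by rw [hy0, hκ]; ring
    rw [this]; exact hM2
  have hMN : (tm q : ℝ) * (N * y0) ^ 2 ≤ δ' / 16 := by
    have : (tm q : ℝ) * (N * y0) ^ 2 = (N * (β * J')) ^ 2 / tm q := by
      rw [hy0, hκ]; field_simp
    rw [this]; exact hM3
  have hMy : (tm q : ℝ) * y0 = β * J' := by rw [hy0, ← hκM]; ring
  have hrr : N * Real.exp (100 * (K + 1) ^ 2 * (1 + tm q * y0) -
      r / (10 * K * (K + 1) ^ 2)) ≤ δ' / 24 := by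
    rw [hMy, hN, hNexp, ← Real.exp_add]
    have e1 : Real.exp (2 * lam + (100 * (K + 1) ^ 2 * (1 + β * J') -
        r / (10 * K * (K + 1) ^ 2))) ≤ Real.exp (-(v + T) + -4) := by
      apply Real.exp_le_exp.2
      rw [hc1, hc2] at hr1
      linarith
    refine e1.trans ?_
    rw [Real.exp_add, hlogδ, div_eq_mul_one_div]
    exact mul_le_mul_of_nonneg_left exp_four hδ'0.le
  have hy80 : y0 ≤ 1 / 80 := (le_mul_of_one_le_left hy00 hN1).trans hNy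
  -- the matrix
  have : Nonempty (Site L → Fin d) := ⟨fun _ => ⟨0, by omega⟩⟩
  have hH : (ham h L).IsHermitian := ham_herm h hh
  have hHn : ‖ham h L‖ ≤ (L : ℝ) ^ 2 * J' :=
    (norm_ham h).trans (mul_le_mul_of_nonneg_left (hnJ.trans hJJ) (by positivity))
  have heig : ∀ j, |hH.eigenvalues j| ≤ (L : ℝ) ^ 2 * J' := fun j => (eig_abs _ hH j).trans hHn
  have hk1 : ∀ x : ℝ, |x| ≤ (L : ℝ) ^ 2 * J' → κ * x ≤ 1 / 80 ∧ -(1 / 80) ≤ κ * x := by
    intro x hx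
    have h5 : |κ * x| ≤ 1 / 80 := by
      rw [abs_mul, abs_of_pos hκ0]
      refine (mul_le_mul_of_nonneg_left hx hκ0.le).trans ?_
      have : κ * ((L : ℝ) ^ 2 * J') = N * y0 := by rw [hNL, hy0]; ring
      rw [this]
      exact hNy
    rw [abs_le] at h5
    exact ⟨h5.2, h5.1⟩
  have hl : ∀ j, 3 / 4 ≤ 1 - κ * hH.eigenvalues j := fun j => by linarith [(hk1 _ (heig j)).1]
  obtain ⟨e⟩ : Nonempty (Fin (L ^ 2) ≃ Site L) := by
    rw [← Fintype.card_eq, Fintype.card_fin, card_site]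
  obtain ⟨y, hy⟩ : ∃ y : Fin (L ^ 2) → TorOp d L,
    y = fun b => ((-κ : ℝ) : ℂ) • term h (e b) := ⟨_, rfl⟩
  have hyn : ∀ b, ‖y b‖ ≤ y0 := by
    intro b
    rw [hy]
    simp only []
    rw [norm_smul, Complex.norm_real, Real.norm_eq_abs, abs_neg, abs_of_pos hκ0, hy0]
    exact mul_le_mul_of_nonneg_left ((norm_term h (e b)).trans (hnJ.trans hJJ)) hκ0.le
  have hG : 1 + ∑ b, y b = 1 - (κ : ℂ) • ham h L := by
    rw [hy]
    simp only []
    rw [← Finset.smul_sum]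
    have : ∑ b, term h (e b) = ham h L := by
      unfold ham
      exact e.sum_comp (fun u => term h u)
    rw [this]
    push_cast
    rw [neg_smul, sub_eq_add_neg]
  have hKc : ∀ b, open Classical in (univ.filter fun b' => adjR R' e b b').card ≤ K := by
    intro b
    rw [hK]
    exact adjR_card e b
  have hfr := h1 (Site L → Fin d) (ham h L) hH κ hl (L ^ 2) (adjR R' e) K (adjR_symm e)
    (adjR_irr e) hK1 hKc q r y hG y0 hy00 hy80 hyn (by rw [← hN]; linarith)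
    (by
      rw [← hN]
      have : 2 * (tm q : ℝ) * (N * y0) ^ 2 = 2 * (tm q * (N * y0) ^ 2) := by ring
      rw [this]; linarith)
    (by rw [← hN]; linarith)
  rw [← hN] at hfr
  obtain ⟨A1, hA1⟩ : ∃ A1 : TorOp d L, A1 = KA (adjR R' e) q y r := ⟨_, rfl⟩
  rw [← hA1] at hfr
  have hl0 : ∀ j, 0 < 1 - κ * hH.eigenvalues j := fun j => by linarith [hl j]
  have hS0 : 0 ≤ ∑ j, (1 - κ * hH.eigenvalues j) ^ (2 * tm q) :=
    Finset.sum_nonneg fun j _ => (pow_pos (hl0 j) _).le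
  have hfr2 : fr2 (A1 - (1 - (κ : ℂ) • ham h L) ^ tm q) ≤
      δ' ^ 2 * ∑ j, (1 - κ * hH.eigenvalues j) ^ (2 * tm q) := by
    refine hfr.trans (mul_le_mul_of_nonneg_right ?_ hS0)
    have hn1 : 0 ≤ N * Real.exp (100 * (K + 1) ^ 2 * (1 + tm q * y0) -
      r / (10 * K * (K + 1) ^ 2)) := by positivity
    have hn2 : 0 ≤ (tm q : ℝ) * (N * y0) ^ 2 := by positivity
    refine pow_le_pow_left₀ (by linarith) (by linarith) 2
  have hκ1 : ∀ j, |κ * hH.eigenvalues j| ≤ 1 / 2 := by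
    intro j
    have h5 := hk1 _ (heig j)
    rw [abs_le]
    constructor <;> linarith
  have hκ2 : ∀ j, 2 * ((tm q : ℕ) : ℝ) * (κ * hH.eigenvalues j) ^ 2 ≤ δ' / 8 := by
    intro j
    have h5 : |κ * hH.eigenvalues j| ≤ N * y0 := by
      rw [abs_mul, abs_of_pos hκ0]
      refine (mul_le_mul_of_nonneg_left (heig j) hκ0.le).trans (le_of_eq ?_)
      rw [hNL, hy0]; ring
    have h6 : (κ * hH.eigenvalues j) ^ 2 ≤ (N * y0) ^ 2 := by
      rw [← sq_abs]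
      exact pow_le_pow_left₀ (abs_nonneg _) h5 2
    have h7 := mul_le_mul_of_nonneg_left h6 (by positivity : (0:ℝ) ≤ 2 * ((tm q : ℕ) : ℝ))
    have h8 : 2 * (tm q : ℝ) * (N * y0) ^ 2 = 2 * (tm q * (N * y0) ^ 2) := by ring
    linarith
  have ht0' : 0 < t := by linarith
  have hAB : ((2 * ((tm q : ℕ) : ℝ) * κ : ℝ) : ℂ) • ham h L =
      (β₀ : ℂ) • ham h₀ L + (t : ℂ) • ham g₀ L := by
    rw [hham, smul_add, smul_smul, smul_smul, ← Complex.ofReal_mul, ← Complex.ofReal_mul]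
    have e1 : 2 * ((tm q : ℕ) : ℝ) * κ * (β₀ / (2 * β)) = β₀ := by
      have : 2 * ((tm q : ℕ) : ℝ) * κ = 2 * β := by linarith
      rw [this]
      field_simp
    have e2 : 2 * ((tm q : ℕ) : ℝ) * κ * (t / (2 * β)) = t := by
      have : 2 * ((tm q : ℕ) : ℝ) * κ = 2 * β := by linarith
      rw [this]
      field_simp
    rw [e1, e2]
  have hgn : ‖ham g₀ L‖ ≤ (L : ℝ) ^ 2 * J' :=
    (norm_ham g₀).trans (mul_le_mul_of_nonneg_left (hJg.trans hJJ) (by positivity))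
  obtain ⟨s, ht0, ht⟩ := colK hPB (ham h L) hH κ δ' (δ' / 8) ((L : ℝ) ^ 2 * J') β₀ t (tm q) A1
    (ham h₀ L) (ham g₀ L) (ham_herm h₀ hh₀) hκ0.le ht0' hAB hgn hδ'0.le hδ'2 (by linarith) hκ1 hκ2
    hfr2 φ hφ
  obtain ⟨A, hA⟩ := peps_KA reg hRL (K := Fin 1)
    (fun x i _ _ _ _ => if i = s x then (1 : ℂ) else 0) ((-κ : ℝ) : ℂ) h e q r
  rw [basis_contract] at hA
  have hcol : A1 *ᵥ Pi.single s 1 = fun a => A1 a s := by
    funext a
    rw [Matrix.mulVec_single_one]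
    rfl
  have hx : (fun a => A1 a s) = contract A := by
    rw [← hcol, hA1, hy]
    exact hA
  rw [hx] at ht0 ht
  have hpeps : IsPEPS (Fintype.card (Fin 1 × (Fin (2 * R' + 1) × Fin (2 * R' + 1) →
      LabT d (R' + 1) q r))) (contract A) := isPEPS_contract A
  have hnr : 0 < nr (contract A) := by
    rcases (nr_nonneg (contract A)).lt_or_eq with h5 | h5
    · exact h5
    · exfalso
      have := nr_sq (contract A)
      rw [← h5] at this
      rw [← this] at ht0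
      simp at ht0
  have hnn : ‖((nr (contract A))⁻¹ : ℂ)‖ = (nr (contract A))⁻¹ := by
    rw [norm_inv, Complex.norm_real, Real.norm_eq_abs, abs_of_pos hnr]
  refine ⟨_, ((nr (contract A))⁻¹ : ℂ) • contract A, ?_, hpeps.smul _, ?_, ?_⟩
  · -- the bond dimension
    have hcardb := card_bdK count (d := d) (R' := R') 1 q r
    rw [Nat.cast_one, one_mul, ← hP, ← hQ] at hcardb
    refine hcardb.trans (Real.exp_le_exp.2 ?_)
    rw [← hlam, ← hT]
    have h5 := num_bd β lam T v J' c1 c2 P Q C1 r (Real.log d) hβ hlam0 hT0 hv0 hJ1 hc10 hc20 hP0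
      hQ0 hlogd.le hr2 hC1
    refine h5.trans ?_
    have h6 : 0 ≤ 4 * (P + 1) * C1 * Q + 4 * Real.log d := by positivity
    refine mul_le_mul_of_nonneg_left ?_ h6
    rw [hβd]
    linarith
  · rw [← nr_sq, nr_smul, hnn, inv_mul_cancel₀ hnr.ne', one_pow]
  · unfold qf at ht ⊢
    rw [Matrix.mulVec_smul, ip_smul_right, ip_smul_left]
    have e5 : ((nr (contract A))⁻¹ : ℂ) * ((starRingEnd ℂ) ((nr (contract A))⁻¹ : ℂ) *
        ip (contract A) (ham g₀ L *ᵥ contract A)) =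
        ((((nr (contract A)) ^ 2)⁻¹ : ℝ) : ℂ) * ip (contract A) (ham g₀ L *ᵥ contract A) := by
      rw [map_inv₀, Complex.conj_ofReal]
      push_cast
      ring
    rw [e5, Complex.re_ofReal_mul]
    rw [← nr_sq] at ht
    have e6 := ht
    rw [mul_comm _ (nr (contract A) ^ 2), ← inv_mul_le_iff₀ (by positivity)] at e6
    refine e6.trans ?_
    have e7 : (L : ℝ) ^ 2 * J' * (16 * (δ' / 8) + 40 * δ') ≤ (L : ℝ) ^ 2 * δ := by
      have e8 : (L : ℝ) ^ 2 * J' * (16 * (δ' / 8) + 40 * δ') = (L : ℝ) ^ 2 * (42 * (J' * δ')) := by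
        ring
      have e9 : J' * δ' = δ / 48 := by
        rw [hδ']
        field_simp
      rw [e8, e9]
      refine mul_le_mul_of_nonneg_left ?_ (by positivity)
      linarith
    linarith

end Pool.Agent.Zk71.PE
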