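import Pool.Agent.Zk71.PE.LowK

/-! # Reach in terms of the free energy, both exponentials in one network -/

set_option autoImplicit false

open scoped BigOperators ComplexConjugate Classical InnerProductSpace Matrix ComplexOrder
open scoped Matrix.Norms.L2Operator

noncomputable section

namespace Pool.Agent.Zk71.PE

open Pool.Agent.N658.TP Pool.Agent.Y738.PE Pool.Agent.TH235 Pool.Agent.N163.TP Pool.Agent.N79.TP
open Pool.Agent.N712.TP

/-- `Reach` with a bond dimension controlled by the free energy; the logarithm of the size is added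
and not multiplied. -/
def StmReachG : Prop := ∀ (d r R' : ℕ) (J : ℝ), 2 ≤ d → 0 < r → ∃ C : ℝ, 0 < C ∧
  ∀ (n L : ℕ) [NeZero L] [NeZero (2 * n)], 2 * n ≤ L →
  ∀ ε : ℝ, 0 < ε → ε ≤ 1 → ∀ β : ℝ, 0 ≤ β → C * (1 + β) / ε ≤ ((2 * n : ℕ) : ℝ) →
  ∀ Ψ : Conf d L → ℂ, nrm Ψ = 1 →
  (∀ (r : ℕ) (v : Site L) (B : BConf d r → BConf d r → ℂ), expec Ψ v B = expec Ψ 0 B) →
  ∀ h : Pool.Agent.TH235.PP.BoxOp d (R' + 1), h.IsHermitian → Pool.Agent.TH235.PP.nJ h ≤ J →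
  ∀ κ : ℝ, 0 ≤ κ →
  Real.log (NormedSpace.exp (((-β : ℝ) : ℂ) • Pool.Agent.TH235.PP.ham h (2 * n))).trace.re +
    β * (((2 * n : ℕ) : ℝ) ^ 2 * (expec Ψ 0 (fun x y => h x y)).re) ≤ κ * ((2 * n : ℕ) : ℝ) ^ 2 →
  ∃ f : ℕ, (f : ℝ) ≤ Real.exp (C * (1 + β + κ / ε + Real.log ((2 * n : ℕ) : ℝ))) ∧
    Reach d r (2 * n) f (fun B => expec Ψ 0 B) (C * ε)

/-- the numbers of the energy estimate -/
theorem num_enG (n m β κ ε r R' J' C E0 Eφ Eh HH lg t : ℝ) (hm : m = 2 * n)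
    (hm1 : 1 ≤ m) (hβ : 0 ≤ β) (hκ : 0 ≤ κ) (hε : 0 < ε) (hR : 0 ≤ R') (hJ' : 1 ≤ J')
    (ht : t = 2 * (1 + κ / ε)) (hC4 : 4 ≤ C) (hCr : 6 * r ≤ C) (hCA : 3 * R' * J' ≤ C)
    (hCm : C * (1 + β) / ε ≤ m) (hE : Eφ ≤ m ^ 2 * E0 + 12 * r * n)
    (hH : HH ≤ m ^ 2 * Eh + 12 * R' * n * J') (hlg : lg + β * (m ^ 2 * Eh) ≤ κ * m ^ 2) :
    Eφ + (lg + β * HH) / t + m ^ 2 * ε ≤ (E0 + C * ε) * m ^ 2 := by
  have hmε : C * (1 + β) ≤ m * ε := by rwa [div_le_iff₀ hε] at hCm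
  have hm0 : 0 < m := by linarith
  have hC0 : 0 < C := by linarith
  have hκε : 0 ≤ κ / ε := by positivity
  have ht0 : 0 < t := by rw [ht]; linarith
  have ht2 : 2 ≤ t := by rw [ht]; linarith
  have hCm2 : C * m ≤ ε * m ^ 2 := by
    have : C ≤ m * ε := by nlinarith
    nlinarith
  have hCβ : C * (1 + β) * m ≤ ε * m ^ 2 := by
    have := mul_le_mul_of_nonneg_right hmε hm0.le
    nlinarith
  have h1 : (lg + β * HH) / t ≤ 2 * (ε * m ^ 2) := by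
    rw [div_le_iff₀ ht0]
    have h2 : β * HH ≤ β * (m ^ 2 * Eh + 12 * R' * n * J') := mul_le_mul_of_nonneg_left hH hβ
    have e : β * (m ^ 2 * Eh + 12 * R' * n * J') =
        β * (m ^ 2 * Eh) + 2 * (3 * R' * J') * β * m := by
      rw [hm]; ring
    have h3 : lg + β * HH ≤ κ * m ^ 2 + 2 * (3 * R' * J') * β * m := by linarith
    have h4 : κ * m ^ 2 ≤ (ε * m ^ 2) * t := by
      have h5 : κ * m ^ 2 = (ε * m ^ 2) * (κ / ε) := by field_simp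
      rw [h5]
      refine mul_le_mul_of_nonneg_left ?_ (by positivity)
      rw [ht]; linarith
    have h6 : 2 * (3 * R' * J') * β * m ≤ (ε * m ^ 2) * t := by
      have h7 : (3 * R' * J') * β ≤ C * (1 + β) := by
        have := mul_le_mul hCA (by linarith : β ≤ 1 + β) hβ hC0.le
        exact this
      have h8 := mul_le_mul_of_nonneg_right h7 hm0.le
      have h9 : (ε * m ^ 2) * 2 ≤ (ε * m ^ 2) * t :=
        mul_le_mul_of_nonneg_left ht2 (by positivity)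
      nlinarith
    linarith
  have h4 : 12 * r * n ≤ ε * m ^ 2 := by
    have e : 12 * r * n = 6 * r * m := by rw [hm]; ring
    rw [e]
    nlinarith
  have h5 : 0 ≤ ε * m ^ 2 := by positivity
  nlinarith

theorem reachG (h1 : StmLowK) (h4 : StmCmpF) : StmReachG := by
  intro d r R' J hd hr
  obtain ⟨r', rfl⟩ : ∃ r', r = r' + 1 := ⟨r - 1, by omega⟩
  obtain ⟨J', hJ'⟩ : ∃ J' : ℝ, J' = max J 1 := ⟨_, rfl⟩
  have hJ'1 : 1 ≤ J' := by rw [hJ']; exact le_max_right _ _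
  have hJJ' : J ≤ J' := by rw [hJ']; exact le_max_left _ _
  obtain ⟨b, hb⟩ : ∃ b : ℕ, b = max r' R' := ⟨_, rfl⟩
  have hrb : r' + 1 ≤ b + 1 := by rw [hb]; omega
  have hRb : R' + 1 ≤ b + 1 := by rw [hb]; omega
  obtain ⟨J2, hJ2⟩ : ∃ J2 : ℝ, J2 = cE d (b + 1) * (J' + cE d (r' + 1)) := ⟨_, rfl⟩
  obtain ⟨C0, hC0, H0⟩ := h1 d b J2 hd
  obtain ⟨C, hC⟩ : ∃ C : ℝ, C = 4 + 6 * ((r' + 1 : ℕ) : ℝ) + 6 * ((R' + 1 : ℕ) : ℝ) +
    3 * ((R' + 1 : ℕ) : ℝ) * J' + 2 * C0 + 2 := ⟨_, rfl⟩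
  have e1 : 0 ≤ 6 * ((r' + 1 : ℕ) : ℝ) := by positivity
  have e2 : 0 ≤ 6 * ((R' + 1 : ℕ) : ℝ) := by positivity
  have e3 : 0 ≤ 3 * ((R' + 1 : ℕ) : ℝ) * J' := by positivity
  have hCpos : 0 < C := by rw [hC]; linarith
  refine ⟨C, hCpos, ?_⟩
  intro n L _ _ hnL ε hε hε1 β hβ hCm Ψ hΨ hTI h hh hhJ κ hκ hfree
  have hn : 0 < n := by
    have := NeZero.pos (2 * n)
    omega
  have hCβ : C ≤ C * (1 + β) / ε := by
    rw [le_div_iff₀ hε]
    nlinarith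
  have hrn : r' + 1 ≤ n := by
    have g1 : 6 * ((r' + 1 : ℕ) : ℝ) ≤ ((2 * n : ℕ) : ℝ) := by
      have : 6 * ((r' + 1 : ℕ) : ℝ) ≤ C := by rw [hC]; linarith
      linarith
    have g2 : 6 * (r' + 1) ≤ 2 * n := by exact_mod_cast g1
    omega
  have hRn : R' + 1 ≤ n := by
    have g1 : 6 * ((R' + 1 : ℕ) : ℝ) ≤ ((2 * n : ℕ) : ℝ) := by
      have : 6 * ((R' + 1 : ℕ) : ℝ) ≤ C := by rw [hC]; linarith
      linarith
    have g2 : 6 * (R' + 1) ≤ 2 * n := by exact_mod_cast g1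
    omega
  have hrm : r' + 1 ≤ 2 * n := by omega
  have hRm : R' + 1 ≤ 2 * n := by omega
  have hbm : b + 1 ≤ 2 * n := by rw [hb]; omega
  have hm2 : 2 ≤ 2 * n := by omega
  obtain ⟨φ, hφ, hφE⟩ := h4 d n L hn hnL Ψ hΨ hTI
  -- the energy of `φ` for `h`
  have hH : qf (PP.ham h (2 * n)) φ ≤ ((2 * n : ℕ) : ℝ) ^ 2 * (expec Ψ 0 (fun x y => h x y)).re +
      12 * ((R' + 1 : ℕ) : ℝ) * n * J' := by
    have g4 : qf (PP.ham h (2 * n)) φ = (enS φ (fun x y => h x y)).re := by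
      unfold qf
      rw [← ip_ham hRm (fun x y => h x y)]
      rfl
    have hJ0' : (0 : ℝ) < J' := by linarith
    have hct : Contr (fun x y => ((J'⁻¹ : ℝ) : ℂ) * h x y) := by
      apply contr_of_sum
      have : ∑ p, ∑ q, ‖((J'⁻¹ : ℝ) : ℂ) * h p q‖ = J'⁻¹ * PP.nJ h := by
        unfold PP.nJ
        rw [Finset.mul_sum]
        refine Finset.sum_congr rfl fun p _ => ?_
        rw [Finset.mul_sum]
        refine Finset.sum_congr rfl fun q _ => ?_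
        rw [norm_mul, Complex.norm_real, Real.norm_eq_abs, abs_of_pos (inv_pos.2 hJ0')]
      rw [this, inv_mul_le_iff₀ hJ0']
      linarith
    have g5 : ‖((J'⁻¹ : ℝ) : ℂ) * enS φ (fun x y => h x y) - ((2 * n : ℕ) : ℂ) ^ 2 *
        (((J'⁻¹ : ℝ) : ℂ) * expec Ψ 0 (fun x y => h x y))‖ ≤ 12 * ((R' + 1 : ℕ) : ℝ) * n := by
      rw [← enS_smul φ _ (fun x y => h x y), ← expec_smul Ψ 0 _ (fun x y => h x y)]
      exact hφE (R' + 1) (Nat.succ_pos _) hRn _ hct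
    have g6 : ((J'⁻¹ : ℝ) : ℂ) * enS φ (fun x y => h x y) - ((2 * n : ℕ) : ℂ) ^ 2 *
        (((J'⁻¹ : ℝ) : ℂ) * expec Ψ 0 (fun x y => h x y)) =
        ((J'⁻¹ : ℝ) : ℂ) * (enS φ (fun x y => h x y) - ((2 * n : ℕ) : ℂ) ^ 2 *
          expec Ψ 0 (fun x y => h x y)) := by ring
    rw [g6, norm_mul, Complex.norm_real, Real.norm_eq_abs, abs_of_pos (inv_pos.2 hJ0'),
      inv_mul_le_iff₀ hJ0'] at g5
    have g7 := (Complex.abs_re_le_norm _).trans g5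
    rw [Complex.sub_re] at g7
    have g8 : (((2 * n : ℕ) : ℂ) ^ 2 * expec Ψ 0 (fun x y => h x y)).re =
        ((2 * n : ℕ) : ℝ) ^ 2 * (expec Ψ 0 (fun x y => h x y)).re := by
      have : (((2 * n : ℕ) : ℂ) ^ 2) = ((((2 * n : ℕ) : ℝ) ^ 2 : ℝ) : ℂ) := by
        push_cast; ring
      rw [this, Complex.re_ofReal_mul]
    rw [g8] at g7
    have g9 := (abs_le.1 g7).2
    rw [g4]
    push_cast at g9 ⊢
    linarith
  obtain ⟨x, hx⟩ : ∃ x : ℝ, x = κ / ε := ⟨_, rfl⟩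
  have hx0 : 0 ≤ x := by rw [hx]; positivity
  obtain ⟨t, ht⟩ : ∃ t : ℝ, t = 2 * (1 + x) := ⟨_, rfl⟩
  have ht2 : 2 ≤ t := by rw [ht]; linarith
  have hlm : 0 ≤ Real.log ((2 * n : ℕ) : ℝ) := Real.log_natCast_nonneg _
  rw [← hx]
  refine ⟨⌊Real.exp (C * (1 + β + x + Real.log ((2 * n : ℕ) : ℝ)))⌋₊,
    Nat.floor_le (Real.exp_pos _).le, ?_⟩
  intro B hB hBc
  have hherm : (Matrix.of B : PP.BoxOp d (r' + 1)).IsHermitian := by
    refine Matrix.IsHermitian.ext fun i j => ?_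
    show star (B j i) = B i j
    rw [hB i j]
    simp
  have hJB : PP.nJ (Matrix.of B : PP.BoxOp d (r' + 1)) ≤ cE d (r' + 1) :=
    nJ_of_le _ fun p q => contr_entry B hBc p q
  have hcE := cE_nonneg d (b + 1)
  have hcE' := cE_nonneg d (r' + 1)
  obtain ⟨D, ψ, hD, hψP, hψ1, hψE⟩ := H0 (2 * n) hm2 hbm β t ε hβ ht2 hε hε1
    (ext (b + 1) hRb h) (ext (b + 1) hrb (Matrix.of B)) (herm_ext hRb h hh)
    (herm_ext hrb _ hherm)
    (by
      refine (nJ_ext hRb h).trans ?_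
      rw [hJ2]
      refine mul_le_mul_of_nonneg_left ?_ hcE
      linarith)
    (by
      refine (nJ_ext hrb _).trans ?_
      rw [hJ2]
      refine mul_le_mul_of_nonneg_left ?_ hcE
      linarith) φ hφ
  rw [ham_ext hRb hbm, ham_ext hrb hbm] at hψE
  obtain ⟨Ac, hAc⟩ := hψP
  have hDf : D ≤ ⌊Real.exp (C * (1 + β + x + Real.log ((2 * n : ℕ) : ℝ)))⌋₊ := by
    refine Nat.le_floor (hD.trans (Real.exp_le_exp.2 ?_))
    have h5 : Real.log (1 / ε) ≤ Real.log ((2 * n : ℕ) : ℝ) := by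
      refine Real.log_le_log (by positivity) (le_trans ?_ hCm)
      refine div_le_div_of_nonneg_right ?_ hε.le
      have : 1 ≤ C := by rw [hC]; linarith
      nlinarith
    have h6 : β + t + Real.log ((2 * n : ℕ) : ℝ) + Real.log (1 / ε) ≤
        2 * (1 + β + x + Real.log ((2 * n : ℕ) : ℝ)) := by
      rw [ht]
      linarith
    have h7 := mul_le_mul_of_nonneg_left h6 hC0.le
    have h8 : 0 ≤ 1 + β + x + Real.log ((2 * n : ℕ) : ℝ) := by linarith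
    have h9 : 2 * C0 * (1 + β + x + Real.log ((2 * n : ℕ) : ℝ)) ≤
        C * (1 + β + x + Real.log ((2 * n : ℕ) : ℝ)) := by
      refine mul_le_mul_of_nonneg_right ?_ h8
      rw [hC]
      linarith
    linarith
  refine ⟨padT _ Ac, ?_, ?_⟩
  · rw [pepsN_pad hDf, ← hAc]
    exact hψ1
  · rw [pepsN_pad hDf, ← hAc, ← ip_ham hrm B]
    have g3 : qf (PP.ham (Matrix.of B) (2 * n)) φ ≤
        ((2 * n : ℕ) : ℝ) ^ 2 * (expec Ψ 0 B).re + 12 * ((r' + 1 : ℕ) : ℝ) * (n : ℝ) := by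
      have g4 : qf (PP.ham (Matrix.of B) (2 * n)) φ = (enS φ B).re := by
        unfold qf
        rw [ip_ham hrm B]
      have g5 := (Complex.abs_re_le_norm _).trans (hφE (r' + 1) (Nat.succ_pos _) hrn B hBc)
      rw [Complex.sub_re] at g5
      have g6 : (((2 * n : ℕ) : ℂ) ^ 2 * expec Ψ 0 B).re =
          ((2 * n : ℕ) : ℝ) ^ 2 * (expec Ψ 0 B).re := by
        have : (((2 * n : ℕ) : ℂ) ^ 2) = ((((2 * n : ℕ) : ℝ) ^ 2 : ℝ) : ℂ) := by
          push_cast; ring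
        rw [this, Complex.re_ofReal_mul]
      rw [g6] at g5
      have g7 := (abs_le.1 g5).2
      rw [g4]
      push_cast at g7 ⊢
      linarith
    refine hψE.trans ?_
    refine num_enG (n : ℝ) ((2 * n : ℕ) : ℝ) β κ ε ((r' + 1 : ℕ) : ℝ)
      ((R' + 1 : ℕ) : ℝ) J' C (expec Ψ 0 B).re _ (expec Ψ 0 (fun x y => h x y)).re
      (qf (PP.ham h (2 * n)) φ)
      (Real.log (NormedSpace.exp ((-β : ℂ) • PP.ham h (2 * n))).trace.re) t
      (by push_cast; ring) (by exact_mod_cast (by omega : 1 ≤ 2 * n)) hβ hκ hε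
      (by positivity) hJ'1 (by rw [ht, hx]) (by rw [hC]; linarith) (by rw [hC]; linarith)
      (by rw [hC]; linarith) hCm g3 hH ?_
    push_cast at hfree ⊢
    exact hfree

end Pool.Agent.Zk71.PE
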