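import Pool.Agent.Zk71.PE.Laws

/-! # Polynomial bond dimension: the spectral condition -/

set_option autoImplicit false

open scoped BigOperators ComplexConjugate Classical InnerProductSpace Matrix ComplexOrder
open scoped Matrix.Norms.L2Operator

noncomputable section

namespace Pool.Agent.Zk71.PE

open Pool.Agent.Y738.PE Pool.Agent.N658.TP Pool.Agent.N658.TP.Sp

theorem cnt_core {ι : Type*} [Fintype ι] (x : ι → ℝ) (hx : ∀ i, 0 ≤ x i) {Lr c β F : ℝ}
    (hL : 1 ≤ Lr) (hc : 0 ≤ c) (hF : 0 ≤ F)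
    (hcnt : ∀ M : ℕ, (((Finset.univ.filter fun i => x i ≤ (M : ℝ)).card : ℕ) : ℝ) ≤
      F * Lr ^ (c * ((M : ℝ) + 1)))
    (hβ : c * Real.log Lr + 1 ≤ β) : ∑ i, Real.exp (-(β * x i)) ≤ 2 * F * Lr ^ (2 * c) := by
  have hlog : 0 ≤ Real.log Lr := Real.log_nonneg hL
  have hβ1 : 1 ≤ β := by
    have := mul_nonneg hc hlog
    linarith
  have hL0 : 0 < Lr := by linarith
  obtain ⟨N, hN⟩ : ∃ N : ℕ, N = (Finset.univ.sup fun i => ⌊x i⌋₊) + 1 := ⟨_, rfl⟩
  have h1 : ∀ i ∈ (Finset.univ : Finset ι), ⌊x i⌋₊ ∈ Finset.range N := by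
    intro i _
    rw [Finset.mem_range, hN]
    have := Finset.le_sup (f := fun i => ⌊x i⌋₊) (Finset.mem_univ i)
    exact Nat.lt_succ_of_le this
  rw [← Finset.sum_fiberwise_of_maps_to h1]
  have h2 : ∀ M ∈ Finset.range N,
      ∑ i ∈ Finset.univ.filter (fun i => ⌊x i⌋₊ = M), Real.exp (-(β * x i)) ≤
        F * Lr ^ (2 * c) * (1 / 2) ^ M := by
    intro M _
    have h3 : ∀ i ∈ Finset.univ.filter (fun i => ⌊x i⌋₊ = M),
        Real.exp (-(β * x i)) ≤ Real.exp (-(β * M)) := by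
      intro i hi
      have h4 := (Finset.mem_filter.1 hi).2
      apply Real.exp_le_exp.2
      have h5 : (M : ℝ) ≤ x i := by
        rw [← h4]
        exact Nat.floor_le (hx i)
      have := mul_le_mul_of_nonneg_left h5 (by linarith : 0 ≤ β)
      linarith
    have h4 : ((Finset.univ.filter (fun i => ⌊x i⌋₊ = M)).card : ℝ) ≤
        F * Lr ^ (c * ((M : ℝ) + 2)) := by
      have h5 : (Finset.univ.filter (fun i => ⌊x i⌋₊ = M)).card ≤
          (Finset.univ.filter fun i => x i ≤ ((M + 1 : ℕ) : ℝ)).card := by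
        apply Finset.card_le_card
        intro i hi
        have h6 := (Finset.mem_filter.1 hi).2
        refine Finset.mem_filter.2 ⟨Finset.mem_univ i, ?_⟩
        have h7 := Nat.lt_floor_add_one (x i)
        rw [h6] at h7
        push_cast
        exact h7.le
      have h6 := hcnt (M + 1)
      have h7 : (((Finset.univ.filter (fun i => ⌊x i⌋₊ = M)).card : ℕ) : ℝ) ≤
          (((Finset.univ.filter fun i => x i ≤ ((M + 1 : ℕ) : ℝ)).card : ℕ) : ℝ) := by
        exact_mod_cast h5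
      refine (h7.trans h6).trans (le_of_eq ?_)
      congr 2
      push_cast
      ring
    calc ∑ i ∈ Finset.univ.filter (fun i => ⌊x i⌋₊ = M), Real.exp (-(β * x i))
        ≤ ∑ i ∈ Finset.univ.filter (fun i => ⌊x i⌋₊ = M), Real.exp (-(β * M)) :=
          Finset.sum_le_sum h3
      _ = ((Finset.univ.filter (fun i => ⌊x i⌋₊ = M)).card : ℝ) * Real.exp (-(β * M)) := by
          rw [Finset.sum_const, nsmul_eq_mul]
      _ ≤ F * Lr ^ (c * ((M : ℝ) + 2)) * Real.exp (-(β * M)) :=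
          mul_le_mul_of_nonneg_right h4 (Real.exp_pos _).le
      _ = F * (Lr ^ (2 * c) * Real.exp (-((β - c * Real.log Lr) * M))) := by
          rw [mul_assoc]
          congr 1
          rw [Real.rpow_def_of_pos hL0, Real.rpow_def_of_pos hL0, ← Real.exp_add, ← Real.exp_add]
          congr 1
          ring
      _ ≤ F * (Lr ^ (2 * c) * (1 / 2) ^ M) := by
          refine mul_le_mul_of_nonneg_left ?_ hF
          refine mul_le_mul_of_nonneg_left ?_ (by positivity)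
          have h5 : Real.exp (-((β - c * Real.log Lr) * M)) ≤ Real.exp (-(M : ℝ)) := by
            apply Real.exp_le_exp.2
            have h6 : (0 : ℝ) ≤ M := Nat.cast_nonneg M
            nlinarith
          refine h5.trans ?_
          have h6 : Real.exp (-(M : ℝ)) = Real.exp (-1) ^ M := by
            rw [← Real.exp_nat_mul]
            congr 1
            ring
          rw [h6]
          refine pow_le_pow_left₀ (Real.exp_pos _).le ?_ M
          rw [Real.exp_neg, one_div]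
          refine inv_anti₀ (by norm_num) ?_
          have := Real.add_one_le_exp (1 : ℝ)
          linarith
      _ = F * Lr ^ (2 * c) * (1 / 2) ^ M := by ring
  calc ∑ M ∈ Finset.range N, ∑ i ∈ Finset.univ.filter (fun i => ⌊x i⌋₊ = M),
        Real.exp (-(β * x i)) ≤ ∑ M ∈ Finset.range N, F * Lr ^ (2 * c) * (1 / 2) ^ M :=
        Finset.sum_le_sum h2
    _ = F * Lr ^ (2 * c) * ∑ M ∈ Finset.range N, (1 / 2 : ℝ) ^ M := by rw [Finset.mul_sum]
    _ ≤ F * Lr ^ (2 * c) * 2 := mul_le_mul_of_nonneg_left (sum_geometric_two_le N) (by positivity)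
    _ = 2 * F * Lr ^ (2 * c) := by ring

theorem part_cnt (d q L : ℕ) [NeZero L] (h : BConf d q → BConf d q → ℂ) (c F : ℝ) (hc : 0 ≤ c)
    (hF : 0 ≤ F) (hcnt : ∀ M : ℕ, (cnt h L M : ℝ) ≤ F * (L : ℝ) ^ (c * (M + 1))) (β : ℝ)
    (hβ : c * Real.log L + 1 ≤ β) : part h L β ≤ 2 * F * (L : ℝ) ^ (2 * c) := by
  have hL : (1 : ℝ) ≤ L := by
    exact_mod_cast NeZero.one_le
  unfold part
  split_ifs with hH
  · refine cnt_core (fun i => hH.eigenvalues i - gs h L) ?_ hL hc hF ?_ hβ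
    · intro i
      unfold gs
      rw [dif_pos hH]
      exact sub_nonneg.2 (ciInf_le (Set.finite_range _).bddBelow i)
    · intro M
      have h1 := hcnt M
      unfold cnt at h1
      rw [dif_pos hH] at h1
      refine le_trans (le_of_eq ?_) h1
      congr 2
      ext i
      simp only [Finset.mem_filter, Finset.mem_univ, true_and]
      exact sub_le_iff_le_add'
  · positivity

/-- The spectral condition. -/
theorem spectral (h1 : StmFreeG) (h2 : StmFreeOf) (d R' : ℕ) (hd : 2 ≤ d)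
    (h : Pool.Agent.TH235.PP.BoxOp d (R' + 1)) (hh : h.IsHermitian) (R : Finset (ℤ × ℤ))
    (a c θ : ℝ) (ha : 0 ≤ a) (hc : 0 ≤ c) (hθ : 0 < θ)
    (H : ∃ m₀ : ℕ, ∀ (m : ℕ) [NeZero m], m₀ ≤ m → ∀ M : ℕ,
      (cnt (fun x y : BConf d (R' + 1) => h x y) m M : ℝ) ≤
        Real.exp (a * (m : ℝ) ^ (2 - θ)) * (m : ℝ) ^ (c * (M + 1))) : PolyApp h R := by
  obtain ⟨m₀, hm₀⟩ := H
  obtain ⟨C₁, hC₁, H1⟩ := h1 d R' hd h hh R
  obtain ⟨p, hp⟩ := exists_nat_ge (2 + 1 / θ)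
  have hθi : 0 < 1 / θ := by positivity
  have hp2' : (2 : ℝ) ≤ p := by linarith
  have hp2 : 2 ≤ p := by exact_mod_cast hp2'
  have hpθ : 1 ≤ (p : ℝ) * θ := by
    have h3 : 1 / θ ≤ p := by linarith
    rwa [div_le_iff₀ hθ] at h3
  obtain ⟨K, hK⟩ : ∃ K : ℝ, K = m₀ + R' + 1 + (C₁ * (2 + 2 * c)) ^ 2 := ⟨_, rfl⟩
  have hm0 : (0 : ℝ) ≤ m₀ := Nat.cast_nonneg _
  have hR0 : (0 : ℝ) ≤ R' := Nat.cast_nonneg _
  have hsq0 : 0 ≤ (C₁ * (2 + 2 * c)) ^ 2 := sq_nonneg _
  have hK1 : 1 ≤ K := by rw [hK]; linarith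
  obtain ⟨K₁, hK₁⟩ : ∃ K₁ : ℝ, K₁ = 2 * (K + 1) := ⟨_, rfl⟩
  have hK₁1 : 4 ≤ K₁ := by rw [hK₁]; linarith
  have hl2 : 0 < Real.log 2 := Real.log_pos (by norm_num)
  have hlK : 0 ≤ Real.log K₁ := Real.log_nonneg (by linarith)
  obtain ⟨K₂, hK₂⟩ : ∃ K₂ : ℝ, K₂ = Real.log K₁ / Real.log 2 + p := ⟨_, rfl⟩
  have hK₂0 : 0 < K₂ := by
    rw [hK₂]
    have : 0 ≤ Real.log K₁ / Real.log 2 := by positivity
    linarith
  obtain ⟨b, hb⟩ : ∃ b : ℝ, b = (c * K₂ + 1 / Real.log 2) + (a + 4 * c + 1) / Real.log 2 + K₂ :=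
    ⟨_, rfl⟩
  have hp1 : 0 ≤ c * K₂ + 1 / Real.log 2 := by positivity
  have hp3 : 0 ≤ (a + 4 * c + 1) / Real.log 2 := by positivity
  obtain ⟨N, hN⟩ := num_fin C₁ b 1 hC₁ (by rw [hb]; linarith)
  refine ⟨N, fun ε hε hε1 => ?_⟩
  have h1ε : 1 ≤ 1 / ε := by rw [le_div_iff₀ hε]; linarith
  have h1ε2 : 1 ≤ (1 / ε) ^ p := one_le_pow₀ h1ε
  have h1ε3 : (1 / ε) ^ 2 ≤ (1 / ε) ^ p := pow_le_pow_right₀ h1ε hp2
  obtain ⟨l, hl⟩ : ∃ l, l = Real.log (2 / ε) := ⟨_, rfl⟩
  have hll : Real.log 2 ≤ l := by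
    rw [hl]
    exact Real.log_le_log (by norm_num) (by rw [le_div_iff₀ hε]; linarith)
  have hl0 : 0 < l := by linarith
  obtain ⟨n, hn⟩ : ∃ n : ℕ, n = ⌈K * (1 / ε) ^ p⌉₊ := ⟨_, rfl⟩
  have hX0 : 0 ≤ K * (1 / ε) ^ p := by positivity
  have hn1 : K * (1 / ε) ^ p ≤ n := by
    rw [hn]
    exact Nat.le_ceil _
  have hnK : K ≤ n := (le_mul_of_one_le_right (by linarith) h1ε2).trans hn1
  have hn0 : 0 < n := by
    have : (0 : ℝ) < n := by linarith
    exact_mod_cast this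
  have i1 : NeZero (2 * n) := ⟨by omega⟩
  obtain ⟨m, hm⟩ : ∃ m : ℝ, m = ((2 * n : ℕ) : ℝ) := ⟨_, rfl⟩
  have hmn : m = 2 * n := by rw [hm]; push_cast; rfl
  have hm1 : K * (1 / ε) ^ p ≤ m := by
    rw [hmn]
    have : (0 : ℝ) ≤ n := Nat.cast_nonneg _
    linarith
  have hmone : 1 ≤ m := by
    rw [hmn]
    have : (1 : ℝ) ≤ n := by exact_mod_cast hn0
    linarith
  have hmpos : 0 < m := by linarith
  have hm3 : m ≤ K₁ * (1 / ε) ^ p := by
    have h4 := Nat.ceil_lt_add_one hX0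
    rw [← hn] at h4
    rw [hmn, hK₁]
    nlinarith
  have hm₀n : m₀ ≤ 2 * n := by
    have h4 : (m₀ : ℝ) ≤ n := by
      refine le_trans ?_ hnK
      rw [hK]
      linarith
    have h5 : m₀ ≤ n := by exact_mod_cast h4
    omega
  have hR'n : R' + 1 ≤ 2 * n := by
    have h4 : ((R' + 1 : ℕ) : ℝ) ≤ n := by
      refine le_trans ?_ hnK
      rw [hK]
      push_cast
      linarith
    have h5 : R' + 1 ≤ n := by exact_mod_cast h4
    omega
  have hlog : Real.log m ≤ K₂ * l := by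
    have h4 := Real.log_le_log hmpos hm3
    rw [Real.log_mul (by linarith) (by positivity), Real.log_pow] at h4
    have h5 : Real.log (1 / ε) ≤ l := by
      rw [hl]
      exact Real.log_le_log (by positivity) (div_le_div_of_nonneg_right (by norm_num) hε.le)
    have h7 : Real.log K₁ ≤ Real.log K₁ / Real.log 2 * l := by
      calc Real.log K₁ = Real.log K₁ / Real.log 2 * Real.log 2 := by field_simp
        _ ≤ Real.log K₁ / Real.log 2 * l := mul_le_mul_of_nonneg_left hll (by positivity)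
    have h8 : (p : ℝ) * Real.log (1 / ε) ≤ p * l :=
      mul_le_mul_of_nonneg_left h5 (Nat.cast_nonneg _)
    rw [hK₂]
    linarith
  have hlog0 : 0 ≤ Real.log m := Real.log_nonneg hmone
  have hsm : Real.log m ≤ 2 * Real.sqrt m := by
    have h3 := Real.log_le_sub_one_of_pos (Real.sqrt_pos.2 hmpos)
    rw [Real.log_sqrt hmpos.le] at h3
    have := Real.sqrt_nonneg m
    linarith
  have hs1 : 1 ≤ Real.sqrt m := Real.one_le_sqrt.2 hmone
  have hss : Real.sqrt m * Real.sqrt m = m := Real.mul_self_sqrt hmpos.le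
  obtain ⟨β, hβ⟩ : ∃ β : ℝ, β = c * Real.log m + 1 := ⟨_, rfl⟩
  have hβ0 : 0 ≤ β := by rw [hβ]; positivity
  have hβ1 : C₁ * (1 + β) / ε ≤ m := by
    have h4 : 1 + β ≤ (2 + 2 * c) * Real.sqrt m := by
      rw [hβ]
      nlinarith
    have h5 : C₁ * (2 + 2 * c) * (1 / ε) ≤ Real.sqrt m := by
      apply Real.le_sqrt_of_sq_le
      refine le_trans ?_ hm1
      rw [mul_pow]
      refine mul_le_mul ?_ h1ε3 (by positivity) (by linarith)
      rw [hK]
      linarith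
    calc C₁ * (1 + β) / ε = C₁ * (1 / ε) * (1 + β) := by ring
      _ ≤ C₁ * (1 / ε) * ((2 + 2 * c) * Real.sqrt m) :=
          mul_le_mul_of_nonneg_left h4 (by positivity)
      _ = C₁ * (2 + 2 * c) * (1 / ε) * Real.sqrt m := by ring
      _ ≤ Real.sqrt m * Real.sqrt m := mul_le_mul_of_nonneg_right h5 (Real.sqrt_nonneg _)
      _ = m := hss
  obtain ⟨κ, hκ⟩ : ∃ κ : ℝ, κ = (a * m ^ (2 - θ) + (2 * c * Real.log m + 1)) / m ^ 2 := ⟨_, rfl⟩
  have hκ0 : 0 ≤ κ := by rw [hκ]; positivity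
  have hκm : κ * m ^ 2 = a * m ^ (2 - θ) + (2 * c * Real.log m + 1) := by
    rw [hκ]
    field_simp
  have hmε : 1 / ε ≤ m := by
    refine le_trans ?_ hm1
    calc 1 / ε ≤ (1 / ε) ^ 2 := by nlinarith
      _ ≤ (1 / ε) ^ p := h1ε3
      _ ≤ K * (1 / ε) ^ p := le_mul_of_one_le_left (by positivity) hK1
  have hmθ : 1 / ε ≤ m ^ θ := by
    have h4 : (1 / ε) ^ p ≤ m := by
      refine le_trans ?_ hm1
      exact le_mul_of_one_le_left (by positivity) hK1
    have h5 : ((1 / ε) ^ p) ^ θ ≤ m ^ θ := Real.rpow_le_rpow (by positivity) h4 hθ.le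
    refine le_trans ?_ h5
    rw [← Real.rpow_natCast, ← Real.rpow_mul (by positivity)]
    calc 1 / ε = (1 / ε) ^ (1 : ℝ) := (Real.rpow_one _).symm
      _ ≤ (1 / ε) ^ ((p : ℝ) * θ) := Real.rpow_le_rpow_of_exponent_le h1ε hpθ
  have hκε : κ / ε ≤ a + 4 * c + 1 := by
    have h4 : 2 * c * Real.log m + 1 ≤ (4 * c + 1) * m := by
      have h5 : Real.sqrt m ≤ m := by nlinarith
      have h6 : 2 * c * Real.log m ≤ 2 * c * (2 * m) :=
        mul_le_mul_of_nonneg_left (by linarith) (by linarith)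
      linarith
    have h5 : 1 ≤ m * ε := by
      rwa [div_le_iff₀ hε] at hmε
    have h6 : 1 ≤ m ^ θ * ε := by
      rwa [div_le_iff₀ hε] at hmθ
    rw [hκ, div_div, div_le_iff₀ (by positivity)]
    have h7 : 2 * c * Real.log m + 1 ≤ (4 * c + 1) * (m ^ 2 * ε) := by
      calc 2 * c * Real.log m + 1 ≤ (4 * c + 1) * m := h4
        _ = (4 * c + 1) * m * 1 := by ring
        _ ≤ (4 * c + 1) * m * (m * ε) := mul_le_mul_of_nonneg_left h5 (by positivity)
        _ = (4 * c + 1) * (m ^ 2 * ε) := by ring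
    have h8 : m ^ (2 - θ) ≤ m ^ 2 * ε := by
      have h9 : m ^ (2 - θ) * m ^ θ = m ^ 2 := by
        rw [← Real.rpow_add hmpos, ← Real.rpow_natCast]
        congr 1
        push_cast
        ring
      rw [← h9]
      calc m ^ (2 - θ) = m ^ (2 - θ) * 1 := (mul_one _).symm
        _ ≤ m ^ (2 - θ) * (m ^ θ * ε) := mul_le_mul_of_nonneg_left h6 (by positivity)
        _ = m ^ (2 - θ) * m ^ θ * ε := by ring
    have h10 := mul_le_mul_of_nonneg_left h8 ha
    nlinarith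
  have hpart := part_cnt d (R' + 1) (2 * n) (fun x y : BConf d (R' + 1) => h x y) c
    (Real.exp (a * ((2 * n : ℕ) : ℝ) ^ (2 - θ))) hc (Real.exp_pos _).le
    (hm₀ (2 * n) hm₀n) β (by rw [← hm, hβ])
  rw [← hm] at hpart
  have hF : FreeLe h (2 * n) β κ := by
    refine h2 d R' (by omega) h hh (2 * n) hR'n β κ (hpart.trans ?_)
    rw [← hm, hκm]
    have h4 : (2 : ℝ) * Real.exp (a * m ^ (2 - θ)) * m ^ (2 * c) =
        Real.exp (a * m ^ (2 - θ) + (2 * c * Real.log m + Real.log 2)) := by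
      have e1 : m ^ (2 * c) = Real.exp (2 * c * Real.log m) := by
        rw [Real.rpow_def_of_pos hmpos]
        congr 1
        ring
      rw [e1, Real.exp_add, Real.exp_add, Real.exp_log (by norm_num : (0 : ℝ) < 2)]
      ring
    rw [h4, Real.exp_le_exp]
    have h5 := Real.log_le_sub_one_of_pos (show (0 : ℝ) < 2 by norm_num)
    linarith
  have h1l : 1 ≤ 1 / Real.log 2 * l := by
    rw [one_div, inv_mul_eq_div, le_div_iff₀ hl2]
    linarith
  obtain ⟨hD1, hL1⟩ := hN ε β κ m hε hε1 hmone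
    (by
      rw [← hl, hb, hβ]
      have := mul_le_mul_of_nonneg_left hlog hc
      nlinarith [mul_nonneg hp3 hl0.le, mul_nonneg hK₂0.le hl0.le])
    (by
      rw [← hl, hb]
      have h4 : a + 4 * c + 1 ≤ (a + 4 * c + 1) / Real.log 2 * l := by
        rw [div_mul_eq_mul_div, le_div_iff₀ hl2]
        exact mul_le_mul_of_nonneg_left hll (by positivity)
      nlinarith [mul_nonneg hp1 hl0.le, mul_nonneg hK₂0.le hl0.le])
    (by rw [← hl, hb]; nlinarith [mul_nonneg hp1 hl0.le, mul_nonneg hp3 hl0.le])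
  obtain ⟨L₀, hL₀⟩ := H1 ε hε hε1 β hβ0 n (by rw [← hm]; exact hβ1) κ hκ0 hF
  refine ⟨L₀, fun L _ hL Ψ hΨ hT => ?_⟩
  obtain ⟨D, A, hD, hA⟩ := hL₀ L hL Ψ hΨ hT
  rw [← hm] at hD hA
  exact ⟨D, A, hD.trans hD1, fun L' _ hL' => hA L' (hL1.trans hL')⟩

end Pool.Agent.Zk71.PE
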